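import Pool.Agent.Helper14.MR.Defs

/-! MR: elementary geometry of the discrete `K₄`. -/

namespace Pool.Agent.Helper54.MR

open Classical Pool.Agent.Helper14.MR

theorem all4 {o u v w : Fin 4} (h : Dist o u v w) (a : Fin 4) :
    a = o ∨ a = u ∨ a = v ∨ a = w := by
  obtain ⟨h1, h2, h3, h4, h5, h6⟩ := h
  revert o u v w a
  decide

theorem exists_dist {o u : Fin 4} (h : o ≠ u) : ∃ v w, Dist o u v w := by
  have : ∃ v w, o ≠ u ∧ o ≠ v ∧ o ≠ w ∧ u ≠ v ∧ u ≠ w ∧ v ≠ w := by
    revert o u
    decide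
  obtain ⟨v, w, h1, h2, h3, h4, h5, h6⟩ := this
  exact ⟨v, w, h1, h2, h3, h4, h5, h6⟩

theorem sum4 {o u v w : Fin 4} (h : Dist o u v w) {n : ℕ} (x : Pt n) :
    x.1 o + x.1 u + x.1 v + x.1 w = n := by
  have huniv : (Finset.univ : Finset (Fin 4)) = {o, u, v, w} := by
    ext a
    have := all4 h a
    simp [this]
  have h1 := x.2.sum
  have h2 : ∑ a, x.1 a = n := by rw [Fin.sum_univ_four]; exact h1
  rw [huniv, Finset.sum_insert (by simp [h.ou, h.ov, h.ow]),
    Finset.sum_insert (by simp [h.uv, h.uw]), Finset.sum_insert (by simp [h.vw]),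
    Finset.sum_singleton] at h2
  omega

/-- at most two nonzero coordinates -/
theorem two4 {o u v w : Fin 4} (h : Dist o u v w) {n : ℕ} (x : Pt n) :
    (x.1 o = 0 ∨ x.1 u = 0 ∨ x.1 v = 0) ∧ (x.1 o = 0 ∨ x.1 u = 0 ∨ x.1 w = 0) ∧
      (x.1 o = 0 ∨ x.1 v = 0 ∨ x.1 w = 0) ∧ (x.1 u = 0 ∨ x.1 v = 0 ∨ x.1 w = 0) :=
  ⟨x.2.supp _ _ _ h.ou h.ov h.uv, x.2.supp _ _ _ h.ou h.ow h.uw,
    x.2.supp _ _ _ h.ov h.ow h.vw, x.2.supp _ _ _ h.uv h.uw h.vw⟩

/-- a neighbour of a point of the open edge `o u` -/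
theorem adj_edge {o u v w : Fin 4} (h : Dist o u v w) {n : ℕ} {x y : Pt n} (hxy : Adj x y)
    (h1 : 0 < x.1 o) (h2 : 0 < x.1 u) :
    y.1 o + y.1 u = n ∧ (y.1 u = x.1 u + 1 ∨ x.1 u = y.1 u + 1) := by
  obtain ⟨a, b, hab, ha, hb, hc⟩ := hxy
  have hx := sum4 h x
  have hx2 := two4 h x
  have hy := sum4 h y
  have hao : a = o ∨ a = u := by
    rcases all4 h a with e | e | e | e
    · exact Or.inl e
    · exact Or.inr e
    · subst e; omega
    · subst e; omega
  have hbo : b = o ∨ b = u := by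
    rcases all4 h b with e | e | e | e
    · exact Or.inl e
    · exact Or.inr e
    · exfalso
      subst e
      rcases hao with e' | e'
      · subst e'
        have := hc u h.ou.symm h.uv
        omega
      · subst e'
        have := hc o h.ou h.ov
        omega
    · exfalso
      subst e
      rcases hao with e' | e'
      · subst e'
        have := hc u h.ou.symm h.uw
        omega
      · subst e'
        have := hc o h.ou h.ow
        omega
  rcases hao with e | e <;> rcases hbo with e' | e'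
  · exact absurd (e.trans e'.symm) hab
  · subst e e'
    have h3 := hc v h.ov.symm h.uv.symm
    have h4 := hc w h.ow.symm h.uw.symm
    omega
  · subst e e'
    have h3 := hc v h.uv.symm h.ov.symm
    have h4 := hc w h.uw.symm h.ow.symm
    omega
  · exact absurd (e.trans e'.symm) hab

/-- points of an edge are determined by one coordinate -/
theorem edge_ext {o u v w : Fin 4} (h : Dist o u v w) {n : ℕ} {x y : Pt n}
    (hx : x.1 o + x.1 u = n) (hy : y.1 o + y.1 u = n) (hu : x.1 u = y.1 u) : x = y := by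
  have h1 := sum4 h x
  have h2 := sum4 h y
  apply Subtype.ext
  funext a
  rcases all4 h a with e | e | e | e <;> subst e <;> omega

/-- the vertex `a` -/
def vert (n : ℕ) (a : Fin 4) : Pt n :=
  ⟨fun c => if c = a then n else 0, by
    constructor
    · revert a
      intro a
      fin_cases a <;> simp
    · intro b c d h1 h2 h3
      by_cases hb : b = a
      · right; left
        have : c ≠ a := fun e => h1 (hb.trans e.symm)
        simp [this]
      · left; simp [hb]⟩

theorem vert_self (n : ℕ) (a : Fin 4) : (vert n a).1 a = n := by simp [vert]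

theorem vert_ne (n : ℕ) {a b : Fin 4} (h : b ≠ a) : (vert n a).1 b = 0 := by simp [vert, h]

theorem eq_vert {n : ℕ} {a : Fin 4} {x : Pt n} (hx : x.1 a = n) : x = vert n a := by
  obtain ⟨b, hb⟩ : ∃ b : Fin 4, a ≠ b := by
    clear hx
    revert a
    decide
  obtain ⟨v, w, h⟩ := exists_dist hb
  have h1 := sum4 h x
  apply Subtype.ext
  funext c
  rcases all4 h c with e | e | e | e
  · subst e; rw [vert_self, hx]
  · subst e; rw [vert_ne n h.ou.symm]; omega
  · subst e; rw [vert_ne n h.ov.symm]; omega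
  · subst e; rw [vert_ne n h.ow.symm]; omega

/-- at most one part of a packing contains a given point -/
theorem card_through {Ω : Type} {R : Ω → Ω → Prop} {par : Finset (Set Ω)} (hp : Packing R par)
    (p : Ω) : (par.filter (fun Q => p ∈ Q)).card ≤ 1 := by
  rw [Finset.card_le_one]
  intro Q hQ Q' hQ'
  rw [Finset.mem_filter] at hQ hQ'
  by_contra hne
  exact Set.disjoint_left.1 (hp.disj Q hQ.1 Q' hQ'.1 hne) hQ.2 hQ'.2

theorem packing_filter {Ω : Type} {R : Ω → Ω → Prop} {par : Finset (Set Ω)} (hp : Packing R par)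
    (P : Set Ω → Prop) : Packing R (par.filter P) :=
  ⟨fun Q hQ => hp.conn Q (Finset.mem_filter.1 hQ).1, fun Q hQ => hp.ne Q (Finset.mem_filter.1 hQ).1,
    fun Q hQ Q' hQ' hne => hp.disj Q (Finset.mem_filter.1 hQ).1 Q' (Finset.mem_filter.1 hQ').1 hne⟩

/-- at most one part contains the vertex `a` -/
theorem card_vertex {n : ℕ} {par : Finset (Set (Pt n))} (hp : Packing Adj par) (a : Fin 4) :
    (par.filter (fun Q => ∃ x ∈ Q, x.1 a = n)).card ≤ 1 := by
  refine le_trans (Finset.card_le_card ?_) (card_through hp (vert n a))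
  intro Q hQ
  rw [Finset.mem_filter] at hQ ⊢
  obtain ⟨h1, x, hx, hxa⟩ := hQ
  exact ⟨h1, eq_vert hxa ▸ hx⟩

theorem le_n {n : ℕ} (x : Pt n) (a : Fin 4) : x.1 a ≤ n := by
  obtain ⟨b, hb⟩ : ∃ b : Fin 4, a ≠ b := by
    revert a
    decide
  obtain ⟨v, w, h⟩ := exists_dist hb
  have h1 := sum4 h x
  omega

end Pool.Agent.Helper54.MR
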