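import Pool.Agent.Helper14.MR.Cake
import Pool.Agent.Helper54.MR.Geo

/-! MR part R17: discrete points and points of a copy. -/

namespace Pool.Agent.Helper54.MR

open Set MeasureTheory Pool.Agent.Helper14.MR

theorem mkPt {o u v w : Fin 4} (h : Dist o u v w) {n : ℕ} (f : Fin 4 → ℕ)
    (hs : f o + f u = n) (hv : f v = 0) (hw : f w = 0) : IsPt n f := by
  classical
  have huniv : (Finset.univ : Finset (Fin 4)) = {o, u, v, w} := by
    ext a
    have := all4 h a
    simp [this]
  constructor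
  · have h2 : ∑ a, f a = n := by
      rw [huniv, Finset.sum_insert (by simp [h.ou, h.ov, h.ow]),
        Finset.sum_insert (by simp [h.uv, h.uw]), Finset.sum_insert (by simp [h.vw]),
        Finset.sum_singleton]
      omega
    rw [Fin.sum_univ_four] at h2
    exact h2
  · intro a b c hab hac hbc
    rcases all4 h a with e | e | e | e
    · rcases all4 h b with e' | e' | e' | e'
      · exact absurd (e.trans e'.symm) hab
      · rcases all4 h c with e'' | e'' | e'' | e''
        · exact absurd (e.trans e''.symm) hac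
        · exact absurd (e'.trans e''.symm) hbc
        · right; right; rw [e'']; exact hv
        · right; right; rw [e'']; exact hw
      · right; left; rw [e']; exact hv
      · right; left; rw [e']; exact hw
    · rcases all4 h b with e' | e' | e' | e'
      · rcases all4 h c with e'' | e'' | e'' | e''
        · exact absurd (e'.trans e''.symm) hbc
        · exact absurd (e.trans e''.symm) hac
        · right; right; rw [e'']; exact hv
        · right; right; rw [e'']; exact hw
      · exact absurd (e.trans e'.symm) hab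
      · right; left; rw [e']; exact hv
      · right; left; rw [e']; exact hw
    · left; rw [e]; exact hv
    · left; rw [e]; exact hw

theorem seg_fst {m : ℕ} (j : Fin m) {a b : Fin 4} (h : a ≠ b) (t : ℝ) :
    seg (j, a) (j, b) t (j, a) = 1 - t := by
  have h1 : (j, a) ≠ ((j, b) : Fin m × Fin 4) := fun e => h (Prod.ext_iff.1 e).2
  simp [seg, h1]

theorem seg_snd {m : ℕ} (j : Fin m) {a b : Fin 4} (h : a ≠ b) (t : ℝ) :
    seg (j, a) (j, b) t (j, b) = t := by
  have h1 : (j, b) ≠ ((j, a) : Fin m × Fin 4) := fun e => h (Prod.ext_iff.1 e).2.symm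
  simp [seg, h1]

theorem seg_other {m : ℕ} (j : Fin m) {a b c : Fin 4} (h : c ≠ a) (h' : c ≠ b) (t : ℝ) :
    seg (j, a) (j, b) t (j, c) = 0 := by
  have h1 : (j, c) ≠ ((j, b) : Fin m × Fin 4) := fun e => h' (Prod.ext_iff.1 e).2
  have h2 : (j, c) ≠ ((j, a) : Fin m × Fin 4) := fun e => h (Prod.ext_iff.1 e).2
  simp [seg, h1, h2]

theorem seg_self {m : ℕ} (j : Fin m) (a : Fin 4) (t : ℝ) :
    seg (j, a) (j, a) t (j, a) = 1 := by
  simp [seg]

/-- R17. every point of a copy has a discrete image, and every discrete point is one -/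
theorem R17 {m n : ℕ} {c : ℝ → ℕ} (hn : 1 ≤ n) (hc : Cell n c) (j : Fin m) :
    (∀ x ∈ (copy j : Set (Fin m × Fin 4 → ℝ)), ∃ d : Pt n, ∀ a, d.1 a = c (x (j, a))) ∧
    (∀ d : Pt n, ∃ x ∈ (copy j : Set (Fin m × Fin 4 → ℝ)), ∀ a, d.1 a = c (x (j, a))) := by
  have hc0 : c 0 = 0 := (hc.zero 0 (by simp)).2 rfl
  have hc1 : c 1 = n := by
    have := hc.refl 0 (by simp)
    rw [sub_zero, hc0] at this
    simpa using this
  constructor
  · rintro x ⟨a, b, t, ht, rfl⟩
    by_cases hab : a = b
    · subst hab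
      obtain ⟨b, hb⟩ : ∃ b : Fin 4, a ≠ b := by
        revert a
        decide
      obtain ⟨v, w, h⟩ := exists_dist hb
      refine ⟨⟨fun e => c (seg (j, a) (j, a) t (j, e)), mkPt h _ ?_ ?_ ?_⟩, fun e => rfl⟩
      · rw [seg_self, seg_other j h.ou.symm h.ou.symm, hc0, hc1, add_zero]
      · rw [seg_other j h.ov.symm h.ov.symm, hc0]
      · rw [seg_other j h.ow.symm h.ow.symm, hc0]
    · obtain ⟨v, w, h⟩ := exists_dist hab
      refine ⟨⟨fun e => c (seg (j, a) (j, b) t (j, e)), mkPt h _ ?_ ?_ ?_⟩, fun e => rfl⟩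
      · rw [seg_fst j hab, seg_snd j hab]
        exact hc.refl t ht
      · rw [seg_other j h.ov.symm h.uv.symm, hc0]
      · rw [seg_other j h.ow.symm h.uw.symm, hc0]
  · intro d
    have hex : ∃ o u v w, Dist o u v w ∧ d.1 o + d.1 u = n ∧ d.1 v = 0 ∧ d.1 w = 0 := by
      have hD : Dist 0 1 2 3 := by constructor <;> decide
      have h1 := sum4 hD d
      have h2 := two4 hD d
      have h3 : (d.1 0 + d.1 1 = n ∧ d.1 2 = 0 ∧ d.1 3 = 0) ∨
          (d.1 0 + d.1 2 = n ∧ d.1 1 = 0 ∧ d.1 3 = 0) ∨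
          (d.1 0 + d.1 3 = n ∧ d.1 1 = 0 ∧ d.1 2 = 0) ∨
          (d.1 1 + d.1 2 = n ∧ d.1 0 = 0 ∧ d.1 3 = 0) ∨
          (d.1 1 + d.1 3 = n ∧ d.1 0 = 0 ∧ d.1 2 = 0) ∨
          (d.1 2 + d.1 3 = n ∧ d.1 0 = 0 ∧ d.1 1 = 0) := by omega
      rcases h3 with h | h | h | h | h | h
      · exact ⟨0, 1, 2, 3, by constructor <;> decide, h⟩
      · exact ⟨0, 2, 1, 3, by constructor <;> decide, h⟩
      · exact ⟨0, 3, 1, 2, by constructor <;> decide, h⟩
      · exact ⟨1, 2, 0, 3, by constructor <;> decide, h⟩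
      · exact ⟨1, 3, 0, 2, by constructor <;> decide, h⟩
      · exact ⟨2, 3, 0, 1, by constructor <;> decide, h⟩
    obtain ⟨o, u, v, w, h, h1, h2, h3⟩ := hex
    obtain ⟨t, ht, hct⟩ := hc.surj (d.1 u) (le_n d u)
    refine ⟨seg (j, o) (j, u) t, ⟨o, u, t, ht, rfl⟩, ?_⟩
    intro a
    rcases all4 h a with e | e | e | e
    · subst e
      rw [seg_fst j h.ou]
      have := hc.refl t ht
      omega
    · subst e
      rw [seg_snd j h.ou, hct]
    · subst e
      rw [seg_other j h.ov.symm h.uv.symm, hc0, h2]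
    · subst e
      rw [seg_other j h.ow.symm h.uw.symm, hc0, h3]

end Pool.Agent.Helper54.MR
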