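import Pool.Agent.Helper14.MR.Cake

/-! MR part R18: the feedback vertex set number of `m` copies of `K₄`. -/

namespace Pool.Agent.Helper54.MR

open Set MeasureTheory Pool.Agent.Helper14.MR

theorem three_free {m : ℕ} (D : Finset (Fin m × Fin 4))
    (hD : ((K m).induce {v | v ∉ D}).IsAcyclic) (j : Fin m) (a b c : Fin 4)
    (hab : a ≠ b) (hac : a ≠ c) (hbc : b ≠ c) (ha : (j, a) ∉ D) (hb : (j, b) ∉ D)
    (hc : (j, c) ∉ D) : False := by
  obtain ⟨C⟩ := hD.colorable_two
  have h1 := C.valid (v := ⟨(j, a), ha⟩) (w := ⟨(j, b), hb⟩) ⟨rfl, hab⟩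
  have h2 := C.valid (v := ⟨(j, a), ha⟩) (w := ⟨(j, c), hc⟩) ⟨rfl, hac⟩
  have h3 := C.valid (v := ⟨(j, b), hb⟩) (w := ⟨(j, c), hc⟩) ⟨rfl, hbc⟩
  generalize C ⟨(j, a), ha⟩ = x at h1 h2
  generalize C ⟨(j, b), hb⟩ = y at h1 h3
  generalize C ⟨(j, c), hc⟩ = z at h2 h3
  revert x y z
  decide

theorem two_in_copy {m : ℕ} (D : Finset (Fin m × Fin 4))
    (hD : ((K m).induce {v | v ∉ D}).IsAcyclic) (j : Fin m) :
    2 ≤ (D.filter (fun d => d.1 = j)).card := by
  by_contra hcon
  set E : Finset (Fin 4) := Finset.univ.filter (fun a => (j, a) ∈ D) with hE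
  have hEc : E.card ≤ 1 := by
    have h1 : (E.map ⟨fun a => (j, a), fun a b h => (Prod.ext_iff.1 h).2⟩).card ≤
        (D.filter (fun d => d.1 = j)).card := by
      apply Finset.card_le_card
      intro d hd
      rw [Finset.mem_map] at hd
      obtain ⟨a, ha, rfl⟩ := hd
      rw [Finset.mem_filter]
      exact ⟨(Finset.mem_filter.1 ha).2, rfl⟩
    rw [Finset.card_map] at h1
    omega
  have h3 : 3 ≤ (Finset.univ \ E).card := by
    have h4 : (Finset.univ \ E).card + E.card = 4 := by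
      rw [Finset.card_sdiff_add_card_eq_card (Finset.subset_univ _), Finset.card_univ]
      rfl
    omega
  obtain ⟨T, hT, hT3⟩ := Finset.exists_subset_card_eq h3
  obtain ⟨a, b, c, hab, hac, hbc, rfl⟩ := Finset.card_eq_three.1 hT3
  have hmem : ∀ x ∈ ({a, b, c} : Finset (Fin 4)), (j, x) ∉ D := by
    intro x hx hxD
    exact (Finset.mem_sdiff.1 (hT hx)).2 (Finset.mem_filter.2 ⟨Finset.mem_univ _, hxD⟩)
  exact three_free D hD j a b c hab hac hbc (hmem a (by simp)) (hmem b (by simp))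
    (hmem c (by simp))

theorem pair4 : ∀ va xa ya : Fin 4, va ∉ ({0, 1} : Finset (Fin 4)) →
    xa ∉ ({0, 1} : Finset (Fin 4)) → ya ∉ ({0, 1} : Finset (Fin 4)) → va ≠ xa → ya ≠ va →
    xa = ya := by
  decide

/-- R18. feedback vertex set number of `m` copies of `K₄` -/
theorem R18 (m : ℕ) : fvsNum (K m) = 2 * m := by
  have hlow : ∀ k ∈ {k | ∃ D : Finset (Fin m × Fin 4), D.card = k ∧
      ((K m).induce {v | v ∉ D}).IsAcyclic}, 2 * m ≤ k := by
    rintro k ⟨D, rfl, hD⟩
    have h1 : D.card = ∑ j : Fin m, (D.filter (fun d => d.1 = j)).card :=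
      Finset.card_eq_sum_card_fiberwise (fun _ _ => Finset.mem_univ _)
    have h2 : ∑ _j : Fin m, 2 ≤ ∑ j : Fin m, (D.filter (fun d => d.1 = j)).card :=
      Finset.sum_le_sum (fun j _ => two_in_copy D hD j)
    rw [Finset.sum_const, Finset.card_univ, Fintype.card_fin, smul_eq_mul] at h2
    omega
  have hmem : 2 * m ∈ {k | ∃ D : Finset (Fin m × Fin 4), D.card = k ∧
      ((K m).induce {v | v ∉ D}).IsAcyclic} := by
    refine ⟨Finset.univ ×ˢ {0, 1}, ?_, ?_⟩
    · rw [Finset.card_product, Finset.card_univ, Fintype.card_fin]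
      have : ({0, 1} : Finset (Fin 4)).card = 2 := by decide
      rw [this, Nat.mul_comm]
    · intro v c hc
      have h1 := hc.snd_ne_penultimate
      have h2 := c.adj_snd hc.not_nil
      have h3 := c.adj_penultimate hc.not_nil
      generalize c.snd = x at h1 h2
      generalize c.penultimate = y at h1 h3
      apply h1
      obtain ⟨⟨vj, va⟩, hv⟩ := v
      obtain ⟨⟨xj, xa⟩, hx⟩ := x
      obtain ⟨⟨yj, ya⟩, hy⟩ := y
      simp only [SimpleGraph.comap_adj, Function.Embedding.subtype_apply, K] at h2 h3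
      have hv' : va ∉ ({0, 1} : Finset (Fin 4)) :=
        fun h => hv (Finset.mem_product.2 ⟨Finset.mem_univ _, h⟩)
      have hx' : xa ∉ ({0, 1} : Finset (Fin 4)) :=
        fun h => hx (Finset.mem_product.2 ⟨Finset.mem_univ _, h⟩)
      have hy' : ya ∉ ({0, 1} : Finset (Fin 4)) :=
        fun h => hy (Finset.mem_product.2 ⟨Finset.mem_univ _, h⟩)
      obtain ⟨h2a, h2b⟩ := h2
      obtain ⟨h3a, h3b⟩ := h3
      subst h2a
      subst h3a
      have : xa = ya := pair4 va xa ya hv' hx' hy' h2b h3b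
      subst this
      rfl
  unfold fvsNum
  exact le_antisymm (Nat.sInf_le hmem) (hlow _ (Nat.sInf_mem ⟨_, hmem⟩))

end Pool.Agent.Helper54.MR
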