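import Pool.Agent.Helper14.MR.Defs

/-! MR parts R2 (standard assignment), R3 (dichotomy), R4 (assembly of the copies). -/

namespace Pool.Agent.Helper54.MR

open Classical Pool.Agent.Helper14.MR

/-- a threshold set (h-index) -/
theorem pick {A : Type} (R : Finset A) (c : A → ℕ) :
    ∃ (t : ℕ) (S : Finset A), S ⊆ R ∧ S.card = t ∧ (∀ a ∈ S, t + 2 ≤ c a) ∧
      (∀ a ∈ R, a ∉ S → c a ≤ t + 2) := by
  set P : ℕ → Prop := fun t => t ≤ (R.filter (fun a => t + 2 ≤ c a)).card with hP
  have h0 : P 0 := by simp [hP]
  set t := Nat.findGreatest P R.card with ht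
  have h1 : P t := Nat.findGreatest_spec (P := P) (Nat.zero_le _) h0
  have h2 : ¬ P (t + 1) := by
    intro h
    by_cases hle : t + 1 ≤ R.card
    · exact absurd (Nat.le_findGreatest hle h) (by omega)
    · have h3 : (R.filter (fun a => t + 1 + 2 ≤ c a)).card ≤ R.card := Finset.card_filter_le _ _
      have h4 : t + 1 ≤ (R.filter (fun a => t + 1 + 2 ≤ c a)).card := h
      omega
  have h3 : (R.filter (fun a => t + 3 ≤ c a)).card ≤ t := by
    by_contra hcon
    apply h2
    have : t + 1 ≤ (R.filter (fun a => t + 3 ≤ c a)).card := by omega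
    exact this
  have hsub : R.filter (fun a => t + 3 ≤ c a) ⊆ R.filter (fun a => t + 2 ≤ c a) := by
    intro a ha
    simp only [Finset.mem_filter] at ha ⊢
    exact ⟨ha.1, by omega⟩
  obtain ⟨S, hS1, hS2, hS3⟩ := Finset.exists_subsuperset_card_eq hsub h3 h1
  refine ⟨t, S, fun a ha => (Finset.mem_filter.1 (hS2 ha)).1, hS3,
    fun a ha => (Finset.mem_filter.1 (hS2 ha)).2, fun a ha hn => ?_⟩
  by_contra hcon
  exact hn (hS1 (Finset.mem_filter.2 ⟨ha, by omega⟩))

/-- R2. standard assignment -/
theorem R2 {A J : Type} (R : Finset A) (K : Finset J) (c : A → J → ℕ)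
    (h : ∀ a ∈ R, R.card + 2 * K.card ≤ ∑ j ∈ K, c a j) :
    ∃ S : J → Finset A, (∀ a ∈ R, ∃ j ∈ K, a ∈ S j) ∧
      ∀ j ∈ K, ∀ a ∈ S j, (S j).card + 2 ≤ c a j := by
  induction K using Finset.induction_on generalizing R with
  | empty =>
    refine ⟨fun _ => ∅, ?_, by simp⟩
    intro a ha
    have h1 := h a ha
    simp only [Finset.card_empty, mul_zero, add_zero, Finset.sum_empty, Nat.le_zero,
      Finset.card_eq_zero] at h1
    simp [h1] at ha
  | insert j K hj ih =>
    obtain ⟨t, S0, hS0, hcard, hge, hle⟩ := pick R (fun a => c a j)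
    have hc : (R \ S0).card + t = R.card := by
      rw [← hcard]; exact Finset.card_sdiff_add_card_eq_card hS0
    obtain ⟨S, hS1, hS2⟩ := ih (R \ S0) (by
      intro a ha
      rw [Finset.mem_sdiff] at ha
      have h1 := h a ha.1
      rw [Finset.sum_insert hj, Finset.card_insert_of_notMem hj] at h1
      have h2 := hle a ha.1 ha.2
      omega)
    refine ⟨fun i => if i = j then S0 else S i, ?_, ?_⟩
    · intro a ha
      by_cases has : a ∈ S0
      · exact ⟨j, Finset.mem_insert_self _ _, by simpa using has⟩
      · obtain ⟨i, hi, hi2⟩ := hS1 a (Finset.mem_sdiff.2 ⟨ha, has⟩)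
        have hij : i ≠ j := fun e => hj (e ▸ hi)
        exact ⟨i, Finset.mem_insert_of_mem hi, by simpa [hij] using hi2⟩
    · intro i hi a ha
      rcases Finset.mem_insert.1 hi with e | hi'
      · subst e
        simp only [if_true] at ha ⊢
        have := hge a ha
        omega
      · have hij : i ≠ j := fun e => hj (e ▸ hi')
        simp only [hij, if_false] at ha ⊢
        exact hS2 i hi' a ha

/-- R3. dichotomy -/
theorem R3 {A J : Type} (R : Finset A) (K : Finset J) (c : A → J → ℕ)
    (h : ∀ a ∈ R, R.card + 2 * K.card ≤ ∑ j ∈ K, c a j + 1) :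
    (∃ S : J → Finset A, (∀ a ∈ R, ∃ j ∈ K, a ∈ S j) ∧
      ∀ j ∈ K, ∀ a ∈ S j, (S j).card + 2 ≤ c a j) ∨
    (∃ t : J → ℕ, ∑ j ∈ K, t j + 1 = R.card ∧
      ∀ j ∈ K, (R.filter (fun a => t j + 3 ≤ c a j)).card ≤ t j) := by
  induction K using Finset.induction_on generalizing R with
  | empty =>
    rcases Finset.eq_empty_or_nonempty R with e | ⟨a, ha⟩
    · left
      exact ⟨fun _ => ∅, by simp [e], by simp⟩
    · right
      have h1 := h a ha
      simp only [Finset.card_empty, mul_zero, add_zero, Finset.sum_empty, zero_add] at h1
      have h2 : 0 < R.card := Finset.card_pos.2 ⟨a, ha⟩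
      exact ⟨fun _ => 0, by simp; omega, by simp⟩
  | insert j0 K hj ih =>
    obtain ⟨t0, A0, hA0, hcard, hge, hle⟩ := pick R (fun a => c a j0)
    have hc : (R \ A0).card + t0 = R.card := by
      rw [← hcard]; exact Finset.card_sdiff_add_card_eq_card hA0
    have hsum : ∀ a ∈ R, R.card + 2 * K.card + 2 ≤ c a j0 + ∑ j ∈ K, c a j + 1 := by
      intro a ha
      have h1 := h a ha
      rw [Finset.sum_insert hj, Finset.card_insert_of_notMem hj] at h1
      omega
    rcases ih (R \ A0) (by
      intro a ha
      rw [Finset.mem_sdiff] at ha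
      have h1 := hsum a ha.1
      have h2 := hle a ha.1 ha.2
      omega) with ⟨S, hS1, hS2⟩ | ⟨t, ht1, ht2⟩
    · left
      refine ⟨fun i => if i = j0 then A0 else S i, ?_, ?_⟩
      · intro a ha
        by_cases has : a ∈ A0
        · exact ⟨j0, Finset.mem_insert_self _ _, by simpa using has⟩
        · obtain ⟨i, hi, hi2⟩ := hS1 a (Finset.mem_sdiff.2 ⟨ha, has⟩)
          have hij : i ≠ j0 := fun e => hj (e ▸ hi)
          exact ⟨i, Finset.mem_insert_of_mem hi, by simpa [hij] using hi2⟩
      · intro i hi a ha
        rcases Finset.mem_insert.1 hi with e | hi'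
        · subst e
          simp only [if_true] at ha ⊢
          have := hge a ha
          omega
        · have hij : i ≠ j0 := fun e => hj (e ▸ hi')
          simp only [hij, if_false] at ha ⊢
          exact hS2 i hi' a ha
    · by_cases hall : ∀ j ∈ K, (R.filter (fun a => t j + 3 ≤ c a j)).card ≤ t j
      · right
        refine ⟨fun i => if i = j0 then t0 else t i, ?_, ?_⟩
        · rw [Finset.sum_insert hj]
          have : ∑ x ∈ K, (if x = j0 then t0 else t x) = ∑ x ∈ K, t x :=
            Finset.sum_congr rfl (fun x hx => by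
              have : x ≠ j0 := fun e => hj (e ▸ hx)
              simp [this])
          rw [this]
          simp only [if_true]
          omega
        · intro i hi
          rcases Finset.mem_insert.1 hi with e | hi'
          · subst e
            simp only [if_true]
            refine le_trans (Finset.card_le_card (t := A0) ?_) hcard.le
            intro a ha
            rw [Finset.mem_filter] at ha
            by_contra hn
            have := hle a ha.1 hn
            omega
          · have hij : i ≠ j0 := fun e => hj (e ▸ hi')
            simp only [hij, if_false]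
            exact hall i hi'
      · left
        push Not at hall
        obtain ⟨j1, hj1, hlt⟩ := hall
        have hj10 : j1 ≠ j0 := fun e => hj (e ▸ hj1)
        set R' := R \ A0 with hR'
        set F' := R'.filter (fun a => t j1 + 3 ≤ c a j1) with hF'
        have hF'c : F'.card ≤ t j1 := ht2 j1 hj1
        -- B
        have hBex : t j1 + 1 - F'.card ≤ (A0.filter (fun a => t j1 + 3 ≤ c a j1)).card := by
          have h1 : R.filter (fun a => t j1 + 3 ≤ c a j1) ⊆
              F' ∪ A0.filter (fun a => t j1 + 3 ≤ c a j1) := by
            intro a ha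
            rw [Finset.mem_filter] at ha
            rw [Finset.mem_union, Finset.mem_filter, Finset.mem_filter, hR', Finset.mem_sdiff]
            by_cases haA : a ∈ A0
            · right; exact ⟨haA, ha.2⟩
            · left; exact ⟨⟨ha.1, haA⟩, ha.2⟩
          have h2 := (Finset.card_le_card h1).trans (Finset.card_union_le _ _)
          omega
        obtain ⟨B, hB1, hB2⟩ := Finset.exists_subset_card_eq hBex
        have hBA : B ⊆ A0 := fun a ha => (Finset.mem_filter.1 (hB1 ha)).1
        have hBc : ∀ a ∈ B, t j1 + 3 ≤ c a j1 := fun a ha => (Finset.mem_filter.1 (hB1 ha)).2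
        -- Z1
        set D := R'.filter (fun a => c a j0 ≤ t0 + 1) with hD
        have hDF : (D \ F').card ≤ ∑ j ∈ K.erase j1, t j := by
          have h1 : D \ F' ⊆ (K.erase j1).biUnion
              (fun j => R'.filter (fun a => t j + 3 ≤ c a j)) := by
            intro a ha
            rw [Finset.mem_sdiff, hD, Finset.mem_filter] at ha
            obtain ⟨⟨haR, hac⟩, haF⟩ := ha
            have haR2 : a ∈ R := (Finset.mem_sdiff.1 haR).1
            have h2 := hsum a haR2
            have h3 : ∑ j ∈ K, (t j + 2) < ∑ j ∈ K, c a j := by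
              rw [Finset.sum_add_distrib, Finset.sum_const, smul_eq_mul]
              omega
            obtain ⟨j, hjK, hjlt⟩ := Finset.exists_lt_of_sum_lt h3
            rw [Finset.mem_biUnion]
            refine ⟨j, Finset.mem_erase.2 ⟨?_, hjK⟩, Finset.mem_filter.2 ⟨haR, by omega⟩⟩
            intro e
            subst e
            exact haF (Finset.mem_filter.2 ⟨haR, by omega⟩)
          refine (Finset.card_le_card h1).trans (Finset.card_biUnion_le.trans ?_)
          exact Finset.sum_le_sum (fun j hj' => ht2 j (Finset.mem_of_mem_erase hj'))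
        have hsumK : ∑ j ∈ K.erase j1, t j + t j1 = ∑ j ∈ K, t j :=
          Finset.sum_erase_add _ _ hj1
        have hF'R : F' ⊆ R' := Finset.filter_subset _ _
        have hRF : (R' \ F').card + F'.card = R'.card :=
          Finset.card_sdiff_add_card_eq_card hF'R
        have hZex : t j1 + 1 - F'.card ≤ ((R' \ F') \ (D \ F')).card := by
          have h1 : (R' \ F').card ≤ ((R' \ F') \ (D \ F')).card + (D \ F').card :=
            Finset.card_le_card_sdiff_add_card
          omega
        obtain ⟨Z, hZ1, hZ2⟩ := Finset.exists_subset_card_eq hZex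
        have hZR : Z ⊆ R' \ F' := fun a ha => (Finset.mem_sdiff.1 (hZ1 ha)).1
        have hZc : ∀ a ∈ Z, t0 + 2 ≤ c a j0 := by
          intro a ha
          have h1 := Finset.mem_sdiff.1 (hZ1 ha)
          have h2 := Finset.mem_sdiff.1 h1.1
          by_contra hcon
          exact h1.2 (Finset.mem_sdiff.2 ⟨Finset.mem_filter.2 ⟨h2.1, by omega⟩, h2.2⟩)
        -- R*
        set Rs := (R' \ F') \ Z with hRs
        have hRsc : Rs.card + Z.card = (R' \ F').card := Finset.card_sdiff_add_card_eq_card hZR
        have hKc : (K.erase j1).card + 1 = K.card := Finset.card_erase_add_one hj1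
        obtain ⟨S, hS1, hS2⟩ := R2 Rs (K.erase j1) c (by
          intro a ha
          have h1 := Finset.mem_sdiff.1 ha
          have h2 := Finset.mem_sdiff.1 h1.1
          have h3 := Finset.mem_sdiff.1 h2.1
          have h4 := hle a h3.1 h3.2
          have h5 : c a j1 ≤ t j1 + 2 := by
            by_contra hcon
            exact h2.2 (Finset.mem_filter.2 ⟨h2.1, by omega⟩)
          have h6 := hsum a h3.1
          have h7 : ∑ j ∈ K.erase j1, c a j + c a j1 = ∑ j ∈ K, c a j :=
            Finset.sum_erase_add _ _ hj1
          omega)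
        refine ⟨fun i => if i = j0 then (A0 \ B) ∪ Z else if i = j1 then F' ∪ B else S i, ?_, ?_⟩
        · intro a ha
          by_cases haA : a ∈ A0
          · by_cases haB : a ∈ B
            · refine ⟨j1, Finset.mem_insert_of_mem hj1, ?_⟩
              simp [hj10, haB]
            · refine ⟨j0, Finset.mem_insert_self _ _, ?_⟩
              simp [haA, haB]
          · have haR' : a ∈ R' := Finset.mem_sdiff.2 ⟨ha, haA⟩
            by_cases haF : a ∈ F'
            · refine ⟨j1, Finset.mem_insert_of_mem hj1, ?_⟩
              simp [hj10, haF]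
            · by_cases haZ : a ∈ Z
              · refine ⟨j0, Finset.mem_insert_self _ _, ?_⟩
                simp [haZ]
              · obtain ⟨i, hi, hi2⟩ := hS1 a (Finset.mem_sdiff.2
                  ⟨Finset.mem_sdiff.2 ⟨haR', haF⟩, haZ⟩)
                have hi3 := Finset.mem_erase.1 hi
                have hi0 : i ≠ j0 := fun e => hj (e ▸ hi3.2)
                exact ⟨i, Finset.mem_insert_of_mem hi3.2, by simpa [hi0, hi3.1] using hi2⟩
        · intro i hi a ha
          by_cases hi0 : i = j0
          · subst hi0
            simp only [if_true] at ha ⊢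
            have h1 : ((A0 \ B) ∪ Z).card ≤ t0 := by
              have h2 := Finset.card_union_le (A0 \ B) Z
              have h3 : (A0 \ B).card + B.card = A0.card := Finset.card_sdiff_add_card_eq_card hBA
              omega
            rcases Finset.mem_union.1 ha with h2 | h2
            · have := hge a (Finset.mem_sdiff.1 h2).1
              omega
            · have := hZc a h2
              omega
          · by_cases hi1 : i = j1
            · subst hi1
              simp only [hi0, if_false, if_true] at ha ⊢
              have h1 : (F' ∪ B).card ≤ t i + 1 := by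
                have h2 := Finset.card_union_le F' B
                omega
              rcases Finset.mem_union.1 ha with h2 | h2
              · have := (Finset.mem_filter.1 h2).2
                omega
              · have := hBc a h2
                omega
            · simp only [hi0, hi1, if_false] at ha ⊢
              have hiK : i ∈ K := by
                rcases Finset.mem_insert.1 hi with e | hi'
                · exact absurd e hi0
                · exact hi'
              exact hS2 i (Finset.mem_erase.2 ⟨hi1, hiK⟩) a ha

/-- R4. assembly of the copies -/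
theorem R4 {A J : Type} [Fintype A] [Fintype J] (hJ : 16 ≤ Fintype.card J) (c : A → J → ℕ)
    (hc : ∀ a, Fintype.card A + 2 * Fintype.card J ≤ ∑ j, c a j + 1)
    (Sv : J → Finset A → Prop)
    (SL : ∀ j S, (∀ a ∈ S, S.card + 2 ≤ c a j) → Sv j S)
    (SL1 : ∀ j (F : Finset A) b, b ∉ F → (∀ a ∈ F, F.card + 3 ≤ c a j) →
      F.card + 2 ≤ c b j → Sv j (insert b F))
    (KL : ∀ j (F X : Finset A) q, 1 ≤ q → Disjoint F X → (∀ a ∈ F, F.card + q + 3 ≤ c a j) →
      (∀ a ∈ X, F.card + q + 2 ≤ c a j) → 15 * q + 2 ≤ X.card →
      ∃ S, F ⊆ S ∧ S.card = F.card + q + 1 ∧ Sv j S) :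
    ∃ S : J → Finset A, (∀ a, ∃ j, a ∈ S j) ∧ ∀ j, Sv j (S j) := by
  rcases R3 (Finset.univ : Finset A) (Finset.univ : Finset J) c (by
    intro a _
    simpa [Finset.card_univ] using hc a) with ⟨S, hS1, hS2⟩ | ⟨t, ht1, ht2⟩
  · refine ⟨S, fun a => ?_, fun j => SL j (S j) (fun a ha => hS2 j (Finset.mem_univ _) a ha)⟩
    obtain ⟨j, _, hj⟩ := hS1 a (Finset.mem_univ _)
    exact ⟨j, hj⟩
  · set F : J → Finset A := fun j => Finset.univ.filter (fun a => t j + 3 ≤ c a j) with hF
    have hFm : ∀ j a, a ∈ F j ↔ t j + 3 ≤ c a j := by
      intro j a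
      simp [hF]
    have hFc : ∀ j, (F j).card ≤ t j := fun j => ht2 j (Finset.mem_univ _)
    set Z : Finset A := Finset.univ.filter (fun a => ∀ j, c a j = t j + 2) with hZ
    have hZm : ∀ a, a ∈ Z ↔ ∀ j, c a j = t j + 2 := by
      intro a
      simp [hZ]
    rw [Finset.card_univ] at ht1
    have hcov : (Finset.univ : Finset A) ⊆ Z ∪ Finset.univ.biUnion F := by
      intro a _
      by_cases haF : ∃ j, a ∈ F j
      · obtain ⟨j, hj⟩ := haF
        exact Finset.mem_union_right _ (Finset.mem_biUnion.2 ⟨j, Finset.mem_univ _, hj⟩)
      · push Not at haF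
        apply Finset.mem_union_left
        rw [hZm]
        have h1 : ∀ j ∈ (Finset.univ : Finset J), c a j ≤ t j + 2 := by
          intro j _
          have := haF j
          rw [hFm] at this
          omega
        have h2 := hc a
        have h3 : ∑ j, (t j + 2) ≤ ∑ j, c a j := by
          rw [Finset.sum_add_distrib, Finset.sum_const, smul_eq_mul, Finset.card_univ]
          omega
        have h4 := (Finset.sum_eq_sum_iff_of_le h1).1
          (le_antisymm (Finset.sum_le_sum h1) h3)
        exact fun j => h4 j (Finset.mem_univ _)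
    have hZc : Fintype.card A ≤ Z.card + ∑ j, (F j).card := by
      have h1 := Finset.card_le_card hcov
      have h2 := Finset.card_union_le Z (Finset.univ.biUnion F)
      have h3 : (Finset.univ.biUnion F).card ≤ ∑ j, (F j).card := Finset.card_biUnion_le
      rw [Finset.card_univ] at h1
      omega
    have hne : (Finset.univ : Finset J).Nonempty := by
      rw [← Finset.card_pos, Finset.card_univ]
      omega
    obtain ⟨j, _, hjmin⟩ := Finset.exists_min_image Finset.univ (fun j => t j - (F j).card) hne
    have hq16 : 16 * (t j - (F j).card) ≤ ∑ i, (t i - (F i).card) := by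
      have h1 : ∑ _i : J, (t j - (F j).card) ≤ ∑ i, (t i - (F i).card) :=
        Finset.sum_le_sum (fun i hi => hjmin i hi)
      rw [Finset.sum_const, smul_eq_mul, Finset.card_univ] at h1
      exact (Nat.mul_le_mul_right _ hJ).trans h1
    have hsumq : ∑ i, (t i - (F i).card) + ∑ i, (F i).card = ∑ i, t i := by
      rw [← Finset.sum_add_distrib]
      exact Finset.sum_congr rfl (fun i _ => Nat.sub_add_cancel (hFc i))
    have hZ1 : 1 + 16 * (t j - (F j).card) ≤ Z.card := by omega
    -- the service on the copy `j`
    have key : ∃ S, F j ⊆ S ∧ S.card = t j + 1 ∧ Sv j S := by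
      have hjc := hFc j
      by_cases hq : t j - (F j).card = 0
      · have hZne : 0 < Z.card := by omega
        obtain ⟨b, hb⟩ := Finset.card_pos.1 hZne
        have hbF : b ∉ F j := by
          rw [hFm, (hZm b).1 hb j]
          omega
        refine ⟨insert b (F j), Finset.subset_insert _ _, ?_, SL1 j (F j) b hbF ?_ ?_⟩
        · rw [Finset.card_insert_of_notMem hbF]
          omega
        · intro a ha
          have := (hFm j a).1 ha
          omega
        · rw [(hZm b).1 hb j]
          omega
      · obtain ⟨S, hS1, hS2, hS3⟩ := KL j (F j) Z (t j - (F j).card) (by omega) (by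
            rw [Finset.disjoint_left]
            intro a ha haZ
            have h1 := (hFm j a).1 ha
            have h2 := (hZm a).1 haZ j
            omega) (by
            intro a ha
            have := (hFm j a).1 ha
            omega) (by
            intro a ha
            have := (hZm a).1 ha j
            omega) (by omega)
        exact ⟨S, hS1, by omega, hS3⟩
    obtain ⟨S, hS1, hS2, hS3⟩ := key
    have hSc : (Finset.univ \ S).card + S.card = Fintype.card A := by
      rw [← Finset.card_univ]
      exact Finset.card_sdiff_add_card_eq_card (Finset.subset_univ _)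
    have hJc : ((Finset.univ : Finset J).erase j).card + 1 = Fintype.card J := by
      rw [← Finset.card_univ]
      exact Finset.card_erase_add_one (Finset.mem_univ _)
    obtain ⟨S', hS'1, hS'2⟩ := R2 (Finset.univ \ S) ((Finset.univ : Finset J).erase j) c (by
      intro a ha
      have h1 : a ∉ F j := fun h => (Finset.mem_sdiff.1 ha).2 (hS1 h)
      rw [hFm] at h1
      have h2 := hc a
      have h3 : ∑ i ∈ (Finset.univ : Finset J).erase j, c a i + c a j = ∑ i, c a i :=
        Finset.sum_erase_add _ _ (Finset.mem_univ _)
      omega)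
    refine ⟨fun i => if i = j then S else S' i, fun a => ?_, fun i => ?_⟩
    · by_cases haS : a ∈ S
      · exact ⟨j, by simpa using haS⟩
      · obtain ⟨i, hi, hi2⟩ := hS'1 a (Finset.mem_sdiff.2 ⟨Finset.mem_univ _, haS⟩)
        have hij : i ≠ j := (Finset.mem_erase.1 hi).1
        exact ⟨i, by simpa [hij] using hi2⟩
    · by_cases hij : i = j
      · subst hij
        simpa using hS3
      · simp only [hij, if_false]
        exact SL i (S' i) (fun a ha => hS'2 i (Finset.mem_erase.2 ⟨hij, Finset.mem_univ _⟩) a ha)

end Pool.Agent.Helper54.MR
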