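import Pool.Agent.Helper54.MR.Geo

/-! MR part R6' from R6. -/

namespace Pool.Agent.Helper54.MR

open Classical Pool.Agent.Helper14.MR

/-- R6'. full service when all parts avoid the vertex `o` and a point `p` of the opposite
triangle (with `R6` as a hypothesis) -/
theorem R6'_of {A : Type} {n : ℕ}
    (hR6 : ∀ (o u v w : Fin 4), Dist o u v w → ∀ i : ℕ, i < n →
      ∀ (par : A → Finset (Set (Pt n))), (∀ a, Packing Adj (par a)) →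
      (∀ a, ∀ Q ∈ par a, ∀ x ∈ Q, x.1 o < n) →
      (∀ a, ∀ Q ∈ par a, ∀ x ∈ Q, ∀ y ∈ Q,
        ¬ (x.1 u + x.1 v = n ∧ x.1 v = i ∧ y.1 u + y.1 v = n ∧ y.1 v = i + 1)) →
      ∀ S : Finset A, (∀ a ∈ S, S.card ≤ (par a).card) → Serv par S)
    (hn : 1 ≤ n) (o : Fin 4) (p : Pt n) (hp : p.1 o = 0)
    (par : A → Finset (Set (Pt n))) (hpar : ∀ a, Packing Adj (par a))
    (ho : ∀ a, ∀ Q ∈ par a, ∀ x ∈ Q, x.1 o < n)
    (hp' : ∀ a, ∀ Q ∈ par a, p ∉ Q)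
    (S : Finset A) (hcard : ∀ a ∈ S, S.card ≤ (par a).card) : Serv par S := by
  obtain ⟨u0, h0⟩ : ∃ b : Fin 4, o ≠ b := by
    clear ho hp
    revert o
    decide
  obtain ⟨v0, w0, hD⟩ := exists_dist h0
  have h1 := sum4 hD p
  have h2 := two4 hD p
  have hex : ∃ u v w, Dist o u v w ∧ 0 < p.1 u ∧ p.1 u + p.1 v = n := by
    have h3 : (0 < p.1 u0 ∧ p.1 u0 + p.1 v0 = n) ∨ (0 < p.1 u0 ∧ p.1 u0 + p.1 w0 = n) ∨
        (0 < p.1 v0 ∧ p.1 v0 + p.1 w0 = n) ∨ (0 < p.1 w0 ∧ p.1 w0 + p.1 u0 = n) := by omega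
    obtain ⟨a1, a2, a3, a4, a5, a6⟩ := hD
    rcases h3 with h | h | h | h
    · exact ⟨u0, v0, w0, ⟨a1, a2, a3, a4, a5, a6⟩, h⟩
    · exact ⟨u0, w0, v0, ⟨a1, a3, a2, a5, a4, a6.symm⟩, h⟩
    · exact ⟨v0, w0, u0, ⟨a2, a3, a1, a6, a4.symm, a5.symm⟩, h⟩
    · exact ⟨w0, u0, v0, ⟨a3, a1, a2, a5.symm, a6.symm, a4⟩, h⟩
  obtain ⟨u, v, w, h, hu, huv⟩ := hex
  refine hR6 o u v w h (p.1 v) (by omega) par hpar ho ?_ S hcard
  rintro a Q hQ x hx y _ ⟨e1, e2, _, _⟩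
  have hDuv : Dist u v o w := ⟨h.uv, h.ou.symm, h.uw, h.ov.symm, h.vw, h.ow⟩
  have hxp : x = p := edge_ext hDuv e1 huv e2
  exact hp' a Q hQ (hxp ▸ hx)

end Pool.Agent.Helper54.MR
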