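import Pool.Agent.Helper54.MR.Geo

/-! MR parts R7, R7'. -/

namespace Pool.Agent.Helper54.MR

open Classical Pool.Agent.Helper14.MR

theorem packing_sub' {Ω : Type} {R : Ω → Ω → Prop} {par par' : Finset (Set Ω)}
    (hp : Packing R par) (h : par' ⊆ par) : Packing R par' :=
  ⟨fun Q hQ => hp.conn Q (h hQ), fun Q hQ => hp.ne Q (h hQ),
    fun Q hQ Q' hQ' hne => hp.disj Q (h hQ) Q' (h hQ') hne⟩

theorem serv_mono {A Ω : Type} {par par' : A → Finset (Set Ω)} {S : Finset A}
    (h : Serv par' S) (hsub : ∀ a, par' a ⊆ par a) : Serv par S := by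
  obtain ⟨f, hf1, hf2⟩ := h
  exact ⟨f, fun a ha => hsub a (hf1 a ha), hf2⟩

/-- R7. two lost vertices (with `R6'` as a hypothesis) -/
theorem R7_of {A : Type} {n : ℕ}
    (hR6' : 1 ≤ n → ∀ (o : Fin 4) (p : Pt n), p.1 o = 0 →
      ∀ (par : A → Finset (Set (Pt n))), (∀ a, Packing Adj (par a)) →
      (∀ a, ∀ Q ∈ par a, ∀ x ∈ Q, x.1 o < n) → (∀ a, ∀ Q ∈ par a, p ∉ Q) →
      ∀ S : Finset A, (∀ a ∈ S, S.card ≤ (par a).card) → Serv par S)
    (hn : 1 ≤ n) (par : A → Finset (Set (Pt n)))
    (hpar : ∀ a, Cut Adj (par a)) (S : Finset A) (hS : ∀ a ∈ S, S.card + 2 ≤ (par a).card) :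
    Serv par S := by
  have h03 : (0 : Fin 4) ≠ 3 := by decide
  set par' : A → Finset (Set (Pt n)) := fun a => (par a).filter
    (fun Q => (∀ x ∈ Q, x.1 3 < n) ∧ vert n 0 ∉ Q) with hpar'
  refine serv_mono (par' := par') ?_ (fun a => Finset.filter_subset _ _)
  refine hR6' hn 3 (vert n 0) (vert_ne n h03.symm) par'
    (fun a => packing_sub' (hpar a).toPacking (Finset.filter_subset _ _)) ?_ ?_ S ?_
  · intro a Q hQ
    exact (Finset.mem_filter.1 hQ).2.1
  · intro a Q hQ
    exact (Finset.mem_filter.1 hQ).2.2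
  · intro a ha
    have h1 := hS a ha
    have hv := card_vertex (hpar a).toPacking 3
    have hp := card_through (hpar a).toPacking (vert n 0)
    set L1 := (par a).filter (fun Q => ∃ x ∈ Q, x.1 3 = n) with hL1
    set L3 := (par a).filter (fun Q => vert n 0 ∈ Q) with hL3
    have h2 : par a ⊆ par' a ∪ (L1 ∪ L3) := by
      intro Q hQ
      simp only [Finset.mem_union, hL1, hL3, hpar', Finset.mem_filter]
      by_cases ha : ∀ x ∈ Q, x.1 3 < n
      · by_cases hc' : vert n 0 ∈ Q
        · exact Or.inr (Or.inr ⟨hQ, hc'⟩)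
        · exact Or.inl ⟨hQ, ha, hc'⟩
      · push Not at ha
        obtain ⟨x, hx, hxn⟩ := ha
        exact Or.inr (Or.inl ⟨hQ, x, hx, le_antisymm (le_n x 3) hxn⟩)
    have h3 := Finset.card_le_card h2
    have h4 := Finset.card_union_le (par' a) (L1 ∪ L3)
    have h5 := Finset.card_union_le L1 L3
    omega

/-- a cut with at least two parts separates two adjacent points -/
theorem exists_sep {n : ℕ} {par : Finset (Set (Pt n))} (hp : Cut Adj par) (h2 : 2 ≤ par.card) :
    ∃ u v : Fin 4, u ≠ v ∧ ∃ x y : Pt n, x.1 u + x.1 v = n ∧ y.1 u + y.1 v = n ∧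
      y.1 v = x.1 v + 1 ∧ ∀ Q ∈ par, ¬ (x ∈ Q ∧ y ∈ Q) := by
  by_contra hcon
  push Not at hcon
  obtain ⟨Q0, hQ0, h0⟩ := hp.cover (vert n 0)
  -- an edge whose first vertex is in `Q0` is in `Q0`
  have step : ∀ u v : Fin 4, u ≠ v → vert n u ∈ Q0 →
      ∀ i : ℕ, ∀ x : Pt n, x.1 u + x.1 v = n → x.1 v = i → x ∈ Q0 := by
    intro u v huv hu i
    obtain ⟨a, b, h⟩ := exists_dist huv
    induction i with
    | zero =>
      intro x hx hxv
      have : x.1 u = n := by omega
      rw [eq_vert this]
      exact hu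
    | succ i ih =>
      intro x hx hxv
      have hxu := le_n x v
      -- the previous point
      obtain ⟨y, hy1, hy2⟩ : ∃ y : Pt n, y.1 u + y.1 v = n ∧ y.1 v = i := by
        refine ⟨⟨fun c => if c = u then n - i else if c = v then i else 0, ?_, ?_⟩, ?_, ?_⟩
        · have huniv : (Finset.univ : Finset (Fin 4)) = {u, v, a, b} := by
            ext c
            have := all4 h c
            simp [this]
          have h2 : ∑ c : Fin 4, (if c = u then n - i else if c = v then i else 0) = n := by
            rw [huniv, Finset.sum_insert (by simp [h.ou, h.ov, h.ow]),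
              Finset.sum_insert (by simp [h.uv, h.uw]), Finset.sum_insert (by simp [h.vw]),
              Finset.sum_singleton]
            simp only [if_true, h.ou.symm, h.ov.symm, h.uv.symm, h.ow.symm, h.uw.symm, if_false]
            omega
          rw [Fin.sum_univ_four] at h2
          exact h2
        · intro c d e hcd hce hde
          by_cases hc1 : c = u ∨ c = v
          · by_cases hd1 : d = u ∨ d = v
            · right; right
              have : e ≠ u ∧ e ≠ v := by
                constructor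
                · rintro rfl
                  rcases hc1 with h1 | h1
                  · exact hce h1
                  · rcases hd1 with h2 | h2
                    · exact hde h2
                    · exact hcd (h1.trans h2.symm)
                · rintro rfl
                  rcases hc1 with h1 | h1
                  · rcases hd1 with h2 | h2
                    · exact hcd (h1.trans h2.symm)
                    · exact hde h2
                  · exact hce h1
              simp [this.1, this.2]
            · push Not at hd1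
              right; left
              simp [hd1.1, hd1.2]
          · push Not at hc1
            left
            simp [hc1.1, hc1.2]
        · simp only [if_true, h.ou.symm, if_false]
          omega
        · simp only [if_true, h.ou.symm, if_false]
      have hyQ := ih y hy1 hy2
      obtain ⟨Q, hQ, hQy, hQx⟩ := hcon u v huv y x hy1 hx (by omega)
      have : Q = Q0 := by
        by_contra hne
        exact Set.disjoint_left.1 (hp.disj Q hQ Q0 hQ0 hne) hQy hyQ
      rw [← this]
      exact hQx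
  have hvert : ∀ v : Fin 4, vert n v ∈ Q0 := by
    intro v
    by_cases hv : v = 0
    · subst hv; exact h0
    · refine step 0 v (fun e => hv e.symm) h0 n _ ?_ (vert_self n v)
      rw [vert_self, vert_ne n (fun e => hv e.symm)]
      omega
  have hall : ∀ x : Pt n, x ∈ Q0 := by
    intro x
    have hD : Dist 0 1 2 3 := by constructor <;> decide
    have h1 := sum4 hD x
    have h2 := two4 hD x
    have h3 : ∃ u v : Fin 4, u ≠ v ∧ x.1 u + x.1 v = n := by
      have h3 : (x.1 0 + x.1 1 = n) ∨ (x.1 0 + x.1 2 = n) ∨ (x.1 0 + x.1 3 = n) ∨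
          (x.1 1 + x.1 2 = n) ∨ (x.1 1 + x.1 3 = n) ∨ (x.1 2 + x.1 3 = n) := by omega
      rcases h3 with h | h | h | h | h | h
      · exact ⟨0, 1, by decide, h⟩
      · exact ⟨0, 2, by decide, h⟩
      · exact ⟨0, 3, by decide, h⟩
      · exact ⟨1, 2, by decide, h⟩
      · exact ⟨1, 3, by decide, h⟩
      · exact ⟨2, 3, by decide, h⟩
    obtain ⟨u, v, huv, hx⟩ := h3
    exact step u v huv (hvert u) _ x hx rfl
  have hone : par.card ≤ 1 := by
    rw [Finset.card_le_one]
    have hQQ : ∀ Q ∈ par, Q = Q0 := by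
      intro Q hQ
      obtain ⟨x, hx⟩ := hp.ne Q hQ
      by_contra hne
      exact Set.disjoint_left.1 (hp.disj Q hQ Q0 hQ0 hne) hx (hall x)
    intro Q hQ Q' hQ'
    rw [hQQ Q hQ, hQQ Q' hQ']
  omega

/-- R7'. one tight agent (with `R6` as a hypothesis) -/
theorem R7'_of {A : Type} {n : ℕ}
    (hR6 : ∀ (o u v w : Fin 4), Dist o u v w → ∀ i : ℕ, i < n →
      ∀ (par : A → Finset (Set (Pt n))), (∀ a, Packing Adj (par a)) →
      (∀ a, ∀ Q ∈ par a, ∀ x ∈ Q, x.1 o < n) →
      (∀ a, ∀ Q ∈ par a, ∀ x ∈ Q, ∀ y ∈ Q,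
        ¬ (x.1 u + x.1 v = n ∧ x.1 v = i ∧ y.1 u + y.1 v = n ∧ y.1 v = i + 1)) →
      ∀ S : Finset A, (∀ a ∈ S, S.card ≤ (par a).card) → Serv par S)
    (hn : 1 ≤ n) (par : A → Finset (Set (Pt n)))
    (hpar : ∀ a, Cut Adj (par a)) (F : Finset A) (b : A) (hb : b ∉ F)
    (hF : ∀ a ∈ F, F.card + 3 ≤ (par a).card) (hbc : F.card + 2 ≤ (par b).card) :
    Serv par (insert b F) := by
  obtain ⟨u, v, huv, x, y, hx, hy, hxy, hsep⟩ := exists_sep (hpar b) (by omega)
  obtain ⟨o, w, h'⟩ := exists_dist huv
  have h : Dist o u v w :=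
    ⟨h'.ov.symm, h'.uv.symm, h'.vw, h'.ou, h'.ow, h'.uw⟩
  set par' : A → Finset (Set (Pt n)) := fun a => (par a).filter
    (fun Q => (∀ x ∈ Q, x.1 o < n) ∧ ¬ (x ∈ Q ∧ y ∈ Q)) with hpar'
  refine serv_mono (par' := par') ?_ (fun a => Finset.filter_subset _ _)
  have hyn := le_n y v
  refine hR6 o u v w h (x.1 v) (by omega) par'
    (fun a => packing_sub' (hpar a).toPacking (Finset.filter_subset _ _)) ?_ ?_ (insert b F) ?_
  · intro a Q hQ
    exact (Finset.mem_filter.1 hQ).2.1
  · rintro a Q hQ x' hx' y' hy' ⟨h1, h2, h3, h4⟩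
    have h5 := (Finset.mem_filter.1 hQ).2.2
    have hDuv : Dist u v o w := ⟨huv, h'.ov, h'.ow, h'.uv, h'.uw, h'.vw⟩
    have hxx : x' = x := edge_ext hDuv h1 hx h2
    have hyy : y' = y := edge_ext hDuv h3 hy (by omega)
    exact h5 ⟨hxx ▸ hx', hyy ▸ hy'⟩
  · intro a ha
    rw [Finset.card_insert_of_notMem hb]
    have hv := card_vertex (hpar a).toPacking o
    set L1 := (par a).filter (fun Q => ∃ x ∈ Q, x.1 o = n) with hL1
    set L3 := (par a).filter (fun Q => x ∈ Q ∧ y ∈ Q) with hL3
    have h2 : par a ⊆ par' a ∪ (L1 ∪ L3) := by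
      intro Q hQ
      simp only [Finset.mem_union, hL1, hL3, hpar', Finset.mem_filter]
      by_cases ha : ∀ x ∈ Q, x.1 o < n
      · by_cases hc' : x ∈ Q ∧ y ∈ Q
        · exact Or.inr (Or.inr ⟨hQ, hc'⟩)
        · exact Or.inl ⟨hQ, ha, hc'⟩
      · push Not at ha
        obtain ⟨x, hx, hxn⟩ := ha
        exact Or.inr (Or.inl ⟨hQ, x, hx, le_antisymm (le_n x o) hxn⟩)
    have h3 := Finset.card_le_card h2
    have h4 := Finset.card_union_le (par' a) (L1 ∪ L3)
    have h5 := Finset.card_union_le L1 L3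
    rcases Finset.mem_insert.1 ha with e | haF
    · have h6 : L3 = ∅ := by
        rw [hL3, Finset.filter_eq_empty_iff]
        intro Q hQ
        rw [e] at hQ
        exact hsep Q hQ
      have h7 : L3.card = 0 := by rw [h6, Finset.card_empty]
      have h8 : F.card + 2 ≤ (par a).card := by rw [e]; exact hbc
      omega
    · have h6 := hF a haF
      have h7 : L3.card ≤ 1 := by
        refine le_trans (Finset.card_le_card ?_) (card_through (hpar a).toPacking x)
        intro Q hQ
        rw [hL3, Finset.mem_filter] at hQ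
        exact Finset.mem_filter.2 ⟨hQ.1, hQ.2.1⟩
      omega

end Pool.Agent.Helper54.MR
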