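import Pool.Agent.Helper54.MR.R8

/-! MR part R9. -/

namespace Pool.Agent.Helper54.MR

open Classical Pool.Agent.Helper14.MR

theorem packing_sub {Ω : Type} {R : Ω → Ω → Prop} {par par' : Finset (Set Ω)}
    (hp : Packing R par) (h : par' ⊆ par) : Packing R par' :=
  ⟨fun Q hQ => hp.conn Q (h hQ), fun Q hQ => hp.ne Q (h hQ),
    fun Q hQ Q' hQ' hne => hp.disj Q (h hQ) Q' (h hQ') hne⟩

/-- R9. success, or few agents of `X` are served or spoiled on the edge `o u`; the statement
`R6'` (for the given `A` and `n`) is a hypothesis -/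
theorem R9_of {A : Type} {n : ℕ}
    (hR6' : 1 ≤ n → ∀ (o : Fin 4) (p : Pt n), p.1 o = 0 →
      ∀ (par : A → Finset (Set (Pt n))), (∀ a, Packing Adj (par a)) →
      (∀ a, ∀ Q ∈ par a, ∀ x ∈ Q, x.1 o < n) → (∀ a, ∀ Q ∈ par a, p ∉ Q) →
      ∀ S : Finset A, (∀ a ∈ S, S.card ≤ (par a).card) → Serv par S)
    (hn : 1 ≤ n) (o u v w : Fin 4) (h : Dist o u v w)
    (par : A → Finset (Set (Pt n))) (F X : Finset A) (q : ℕ) (hs : Setup par F X q) :
    Success par F X q ∨
    ∃ (S : Finset A) (f : A → Set (Pt n)) (z : ℕ), Greedy par o u F X S f z ∧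
      Done par o u F X S z ∧
      (X.filter (fun x => x ∈ S ∨ ∃ Q ∈ par x, (∃ y ∈ Q, y.1 u = n) ∧
        ∃ y ∈ Q, y.1 o = n ∨ y ∈ Reg o u z)).card ≤ q := by
  obtain ⟨S, f, z, hG, hc, hor⟩ := R8 o u h.ou par hs.cut F X (q + 1)
  set E := X.filter (fun x => x ∈ S ∨ ∃ Q ∈ par x, (∃ y ∈ Q, y.1 u = n) ∧
        ∃ y ∈ Q, y.1 o = n ∨ y ∈ Reg o u z) with hE
  have hSE : S ∩ X ⊆ E := by
    intro a ha
    rw [Finset.mem_inter] at ha
    rw [hE, Finset.mem_filter]
    exact ⟨ha.2, Or.inl ha.1⟩
  by_cases hEq : E.card ≤ q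
  · right
    refine ⟨S, f, z, hG, ?_, hEq⟩
    rcases hor with h1 | h1
    · have := Finset.card_le_card hSE
      omega
    · exact h1
  · left
    obtain ⟨T, hT1, hT2, hT3⟩ := Finset.exists_subsuperset_card_eq hSE hc (by omega : q + 1 ≤ E.card)
    have hTX : T ⊆ X := fun a ha => (Finset.mem_filter.1 (hT2 ha)).1
    have hFT : Disjoint F T := Finset.disjoint_of_subset_right hTX hs.disj
    have hFTc : (F ∪ T).card = F.card + q + 1 := by
      rw [Finset.card_union_of_disjoint hFT, hT3]; rfl
    have hSFT : S ⊆ F ∪ T := by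
      intro a ha
      rcases Finset.mem_union.1 (hG.sub ha) with h1 | h1
      · exact Finset.mem_union_left _ h1
      · exact Finset.mem_union_right _ (hT1 (Finset.mem_inter.2 ⟨ha, h1⟩))
    set M := (F ∪ T) \ S with hM
    have hMc : M.card + S.card = F.card + q + 1 := by
      rw [← hFTc]; exact Finset.card_sdiff_add_card_eq_card hSFT
    set p : Pt n := vert n u with hp
    set par' : A → Finset (Set (Pt n)) := fun d => (par d).filter (fun Q =>
      (∀ x ∈ Q, x.1 o < n) ∧ (∀ x ∈ Q, x ∉ (Reg o u z : Set (Pt n))) ∧ p ∉ Q) with hpar'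
    have hserv : Serv par' M := by
      refine hR6' hn o p (vert_ne n h.ou) par'
        (fun a => packing_sub (hs.cut a).toPacking (Finset.filter_subset _ _)) ?_ ?_ M ?_
      · intro a Q hQ
        exact (Finset.mem_filter.1 hQ).2.1
      · intro a Q hQ
        exact (Finset.mem_filter.1 hQ).2.2.2
      · intro d hd
        rw [hM, Finset.mem_sdiff] at hd
        have hdFX : d ∈ F ∪ X := by
          rcases Finset.mem_union.1 hd.1 with h1 | h1
          · exact Finset.mem_union_left _ h1
          · exact Finset.mem_union_right _ (hTX h1)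
        have hl := hG.loss d hdFX hd.2
        have hv := card_vertex (hs.cut d).toPacking o
        have hpp := card_through (hs.cut d).toPacking p
        set L1 := (par d).filter (fun Q => ∃ x ∈ Q, x.1 o = n) with hL1
        set L2 := (par d).filter (fun Q => (∀ x ∈ Q, x.1 o < n) ∧
          ∃ x ∈ Q, x ∈ (Reg o u z : Set (Pt n))) with hL2
        set L3 := (par d).filter (fun Q => p ∈ Q) with hL3
        rcases Finset.mem_union.1 hd.1 with hdF | hdT
        · have h1 : par d ⊆ par' d ∪ (L1 ∪ (L2 ∪ L3)) := by
            intro Q hQ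
            simp only [Finset.mem_union, hL1, hL2, hL3, hpar', Finset.mem_filter]
            by_cases ha : ∀ x ∈ Q, x.1 o < n
            · by_cases hb : ∃ x ∈ Q, x ∈ (Reg o u z : Set (Pt n))
              · exact Or.inr (Or.inr (Or.inl ⟨hQ, ha, hb⟩))
              · by_cases hc' : p ∈ Q
                · exact Or.inr (Or.inr (Or.inr ⟨hQ, hc'⟩))
                · push Not at hb
                  exact Or.inl ⟨hQ, ha, hb, hc'⟩
            · push Not at ha
              obtain ⟨x, hx, hxn⟩ := ha
              exact Or.inr (Or.inl ⟨hQ, x, hx, le_antisymm (le_n x o) hxn⟩)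
          have h2 := Finset.card_le_card h1
          have h3 := Finset.card_union_le (par' d) (L1 ∪ (L2 ∪ L3))
          have h4 := Finset.card_union_le L1 (L2 ∪ L3)
          have h5 := Finset.card_union_le L2 L3
          have h6 := hs.hF d hdF
          omega
        · have hdE := (Finset.mem_filter.1 (hT2 hdT)).2
          rcases hdE with h0 | ⟨Q0, hQ0, ⟨y0, hy0, hy0u⟩, y1, hy1, hy1'⟩
          · exact absurd h0 hd.2
          have hpQ0 : p ∈ Q0 := by
            rw [hp, ← eq_vert hy0u]; exact hy0
          have h1 : par d ⊆ par' d ∪ (L1 ∪ L2) := by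
            intro Q hQ
            simp only [Finset.mem_union, hL1, hL2, hpar', Finset.mem_filter]
            by_cases ha : ∀ x ∈ Q, x.1 o < n
            · by_cases hb : ∃ x ∈ Q, x ∈ (Reg o u z : Set (Pt n))
              · exact Or.inr (Or.inr ⟨hQ, ha, hb⟩)
              · by_cases hc' : p ∈ Q
                · exfalso
                  have hQQ : Q = Q0 := by
                    by_contra hne
                    exact Set.disjoint_left.1 ((hs.cut d).disj Q hQ Q0 hQ0 hne) hc' hpQ0
                  subst hQQ
                  rcases hy1' with h2 | h2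
                  · have := ha y1 hy1
                    omega
                  · exact hb ⟨y1, hy1, h2⟩
                · push Not at hb
                  exact Or.inl ⟨hQ, ha, hb, hc'⟩
            · push Not at ha
              obtain ⟨x, hx, hxn⟩ := ha
              exact Or.inr (Or.inl ⟨hQ, x, hx, le_antisymm (le_n x o) hxn⟩)
          have h2 := Finset.card_le_card h1
          have h3 := Finset.card_union_le (par' d) (L1 ∪ L2)
          have h4 := Finset.card_union_le L1 L2
          have h6 := hs.hX d (hTX hdT)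
          omega
    obtain ⟨g, hg1, hg2⟩ := hserv
    refine ⟨F ∪ T, Finset.subset_union_left, Finset.union_subset_union_right hTX, hFTc,
      fun a => if a ∈ S then f a else g a, ?_, ?_⟩
    · intro a ha
      by_cases haS : a ∈ S
      · simp only [haS, if_true]
        exact (hG.mem a haS).1
      · simp only [haS, if_false]
        exact (Finset.mem_filter.1 (hg1 a (Finset.mem_sdiff.2 ⟨ha, haS⟩))).1
    · have hfg : ∀ a ∈ S, ∀ b ∈ M, Disjoint (f a) (g b) := by
        intro a ha b hb
        rw [Set.disjoint_left]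
        intro x hx hxg
        exact (Finset.mem_filter.1 (hg1 b hb)).2.2.1 x hxg ((hG.mem a ha).2 hx)
      intro a ha b hb hab
      by_cases haS : a ∈ S <;> by_cases hbS : b ∈ S
      · simp only [haS, hbS, if_true]
        exact hG.disj a haS b hbS hab
      · simp only [haS, hbS, if_true, if_false]
        exact hfg a haS b (Finset.mem_sdiff.2 ⟨hb, hbS⟩)
      · simp only [haS, hbS, if_true, if_false]
        exact (hfg b hbS a (Finset.mem_sdiff.2 ⟨ha, haS⟩)).symm
      · simp only [haS, hbS, if_false]
        exact hg2 a (Finset.mem_sdiff.2 ⟨ha, haS⟩) b (Finset.mem_sdiff.2 ⟨hb, hbS⟩) hab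

end Pool.Agent.Helper54.MR
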