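import Pool.Agent.Helper54.MR.R8
import Pool.Agent.Helper30.MR.R10

/-! MR part R11: the final step of the key lemma. -/

namespace Pool.Agent.Helper54.MR

open Classical Pool.Agent.Helper14.MR

theorem finite_pt (n : ℕ) : Finite (Pt n) := by
  refine Finite.of_injective
    (fun x : Pt n => fun a : Fin 4 => (⟨x.1 a, Nat.lt_succ_of_le (le_n x a)⟩ : Fin (n + 1))) ?_
  intro x y hxy
  apply Subtype.ext
  funext a
  have := congrFun hxy a
  simpa using this

/-- a connected set which avoids `o`, contains a point of the leg `o v` and a point of the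
triangle opposite to `o` contains the vertex `v` -/
theorem leg {n : ℕ} {o v b c : Fin 4} (h : Dist o v b c) (P : Set (Pt n)) (hP : Conn Adj P)
    (hPo : ∀ x ∈ P, x.1 o < n) (x : Pt n) (hx : x ∈ P) (hxe : x.1 o + x.1 v = n)
    (hx0 : 0 < x.1 o) (hp : ∃ p ∈ P, p.1 o = 0) : vert n v ∈ P := by
  by_contra hv
  have key := hP {y | y.1 o + y.1 v = n ∧ 0 < y.1 o} ⟨x, hx, hxe, hx0⟩ (by
    intro y hy hyW y' hy' hyy
    obtain ⟨h1, h2⟩ := hyW
    have h3 := hPo y hy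
    obtain ⟨h4, h5⟩ := adj_edge h hyy h2 (by omega)
    refine ⟨h4, ?_⟩
    by_contra hcon
    have h6 : y'.1 v = n := by omega
    exact hv (eq_vert h6 ▸ hy'))
  obtain ⟨p, hp, hp0⟩ := hp
  have := (key hp).2
  omega

/-- R11. the final step of the key lemma (with `R6'` as a hypothesis) -/
theorem R11_of {A : Type} {n : ℕ}
    (hR6' : 1 ≤ n → ∀ (o : Fin 4) (p : Pt n), p.1 o = 0 →
      ∀ (par : A → Finset (Set (Pt n))), (∀ a, Packing Adj (par a)) →
      (∀ a, ∀ Q ∈ par a, ∀ x ∈ Q, x.1 o < n) → (∀ a, ∀ Q ∈ par a, p ∉ Q) →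
      ∀ S : Finset A, (∀ a ∈ S, S.card ≤ (par a).card) → Serv par S)
    (hn : 1 ≤ n) (o u v w : Fin 4) (h : Dist o u v w)
    (par : A → Finset (Set (Pt n))) (F X : Finset A) (q : ℕ) (hs : Setup par F X q)
    (S : Finset A) (f : A → Set (Pt n)) (z : ℕ) (hg : Greedy par o u F X S f z)
    (hd : Done par o u F X S z) (hq : (S ∩ X).card ≤ q)
    (a : A) (ha : a ∈ X) (haS : a ∉ S) (U : Set (Pt n)) (hU : U ∈ par a)
    (hUu : ∀ x ∈ U, 0 < x.1 u) (hUo : ∀ x ∈ U, x.1 o < n) (hUz : ∀ x ∈ U, x ∉ Reg o u z)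
    (hU0 : ∃ x ∈ U, x.1 u = n)
    (Y : Finset A) (hY : Y ⊆ X) (haY : a ∉ Y) (hYq : q + 1 ≤ Y.card)
    (hYU : ∀ y ∈ Y, ∃ V ∈ par y, ∀ x ∈ U, x.1 o = 0 → x ∈ V) :
    Success par F X q := by
  haveI := finite_pt n
  -- candidates
  let Cand : A → Set (Pt n) → Prop := fun d Q => d ∈ F ∪ X ∧ d ∉ S ∧ Q ∈ par d ∧
    (∀ x ∈ Q, x.1 o < n) ∧ (∀ x ∈ Q, x ∉ (Reg o u z : Set (Pt n))) ∧
    (∃ x ∈ Q, x.1 o = 0) ∧ ∀ x ∈ Q, x.1 o = 0 → x ∈ U
  let μ : Set (Pt n) → ℕ := fun Q => ({x : Pt n | x ∈ Q ∧ x.1 o = 0}).ncard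
  have hex : ∃ N, ∃ d Q, Cand d Q ∧ μ Q = N := by
    refine ⟨_, a, U, ⟨Finset.mem_union_right _ ha, haS, hU, hUo, hUz, ?_, fun x hx _ => hx⟩, rfl⟩
    obtain ⟨x, hx, hxu⟩ := hU0
    refine ⟨x, hx, ?_⟩
    have := sum4 h x
    omega
  obtain ⟨d0, P0, hc0, hμ0⟩ := Nat.find_spec hex
  have hmin : ∀ d Q, Cand d Q → μ P0 ≤ μ Q := by
    intro d Q hc
    by_contra hcon
    rw [hμ0] at hcon
    exact Nat.find_min hex (Nat.lt_of_not_le hcon) ⟨d, Q, hc, rfl⟩
  obtain ⟨hd0, hd0S, hP0, hP0o, hP0z, hP00, hP0U⟩ := hc0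
  have hP0c := (hs.cut d0).conn P0 hP0
  obtain ⟨p, hpP, hpo⟩ := hP00
  -- `P0` is inside the star of `u`
  have hP0u : ∀ x ∈ P0, 0 < x.1 u := by
    intro x hx
    by_contra hcon
    have hxu : x.1 u = 0 := by omega
    by_cases hxo : x.1 o = 0
    · have := hUu x (hP0U x hx hxo)
      omega
    · have h1 := sum4 h x
      have h2 := two4 h x
      have h3 := hP0o x hx
      have h4 : (x.1 o + x.1 v = n) ∨ (x.1 o + x.1 w = n) := by omega
      rcases h4 with h4 | h4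
      · have hD : Dist o v u w := ⟨h.ov, h.ou, h.ow, h.uv.symm, h.vw, h.uw⟩
        have h5 := leg hD P0 hP0c hP0o x hx h4 (by omega) ⟨p, hpP, hpo⟩
        have h6 := hUu _ (hP0U _ h5 (vert_ne n h.ov))
        rw [vert_ne n h.uv] at h6
        omega
      · have hD : Dist o w u v := ⟨h.ow, h.ou, h.ov, h.uw.symm, h.vw.symm, h.uv⟩
        have h5 := leg hD P0 hP0c hP0o x hx h4 (by omega) ⟨p, hpP, hpo⟩
        have h6 := hUu _ (hP0U _ h5 (vert_ne n h.ow))
        rw [vert_ne n h.uw] at h6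
        omega
  -- parts which meet `P0`
  have hQ1 : ∀ d ∈ F ∪ X, d ∉ S → ∀ Q ∈ par d, (∀ x ∈ Q, x ∉ (Reg o u z : Set (Pt n))) →
      ∃ x ∈ Q, ¬ (0 < x.1 o ∧ 0 < x.1 u) := by
    intro d hdm hdS Q hQ hQz
    by_contra hcon
    push Not at hcon
    obtain ⟨x, hx, hxr⟩ := hd d hdm hdS Q hQ hcon
    exact hQz x hx hxr
  have hL3 : ∀ d ∈ F ∪ X, d ∉ S → ((par d).filter (fun Q => (∀ x ∈ Q, x.1 o < n) ∧
      (∀ x ∈ Q, x ∉ (Reg o u z : Set (Pt n))) ∧ ∃ x ∈ P0, x ∈ Q)).card ≤ 2 := by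
    intro d hdm hdS
    by_contra hcon
    set L := (par d).filter (fun Q => (∀ x ∈ Q, x.1 o < n) ∧
      (∀ x ∈ Q, x ∉ (Reg o u z : Set (Pt n))) ∧ ∃ x ∈ P0, x ∈ Q) with hL
    have h3 : 3 ≤ L.card := by omega
    obtain ⟨T, hT, hT3⟩ := Finset.exists_subset_card_eq h3
    obtain ⟨Q0, Q1, Q2, h01, h02, h12, rfl⟩ := Finset.card_eq_three.1 hT3
    have hm : ∀ Q ∈ ({Q0, Q1, Q2} : Finset (Set (Pt n))), Q ∈ par d ∧ (∀ x ∈ Q, x.1 o < n) ∧
        (∀ x ∈ Q, x ∉ (Reg o u z : Set (Pt n))) ∧ ∃ x ∈ P0, x ∈ Q := by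
      intro Q hQ
      exact Finset.mem_filter.1 (hT hQ)
    let Qf : Fin 3 → Set (Pt n) := ![Q0, Q1, Q2]
    have hQf : ∀ i, Qf i ∈ ({Q0, Q1, Q2} : Finset (Set (Pt n))) := by
      intro i
      fin_cases i <;> simp [Qf]
    have hQne : ∀ i j, i ≠ j → Qf i ≠ Qf j := by
      intro i j hij
      fin_cases i <;> fin_cases j <;> first
        | exact absurd rfl hij
        | exact h01
        | exact h02
        | exact h12
        | exact h01.symm
        | exact h02.symm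
        | exact h12.symm
    obtain ⟨i, hi1, hi2, x, hx, hxo, hxi⟩ := Pool.Agent.Helper30.MR.R10' o u v w h P0 Qf hP0c hP0o
      hP0u ⟨p, hpP, hpo⟩ (fun i => (hs.cut d).conn _ (hm _ (hQf i)).1)
      (fun i => (hm _ (hQf i)).2.1)
      (fun i => hQ1 d hdm hdS _ (hm _ (hQf i)).1 (hm _ (hQf i)).2.2.1)
      (fun i j hij => (hs.cut d).disj _ (hm _ (hQf i)).1 _ (hm _ (hQf j)).1 (hQne i j hij))
      (fun i => (hm _ (hQf i)).2.2.2)
    have hcand : Cand d (Qf i) := ⟨hdm, hdS, (hm _ (hQf i)).1, (hm _ (hQf i)).2.1,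
      (hm _ (hQf i)).2.2.1, hi1, fun y hy hyo => hP0U y (hi2 y hy hyo) hyo⟩
    have hlt : μ (Qf i) < μ P0 := by
      apply Set.ncard_lt_ncard _ (Set.toFinite _)
      constructor
      · rintro y ⟨hy, hyo⟩
        exact ⟨hi2 y hy hyo, hyo⟩
      · intro hsub
        exact hxi (hsub ⟨hx, hxo⟩).1
    have := hmin d (Qf i) hcand
    omega
  have hL3Y : ∀ d ∈ Y, d ∉ S → ((par d).filter (fun Q => (∀ x ∈ Q, x.1 o < n) ∧
      (∀ x ∈ Q, x ∉ (Reg o u z : Set (Pt n))) ∧ ∃ x ∈ P0, x ∈ Q)).card ≤ 1 := by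
    intro d hdY hdS
    obtain ⟨V, hV, hVU⟩ := hYU d hdY
    have hdm : d ∈ F ∪ X := Finset.mem_union_right _ (hY hdY)
    refine le_trans (Finset.card_le_card (t := {V}) ?_) (by simp)
    intro Q hQ
    rw [Finset.mem_filter] at hQ
    rw [Finset.mem_singleton]
    obtain ⟨x, hxP, hxQ, hxo⟩ := Pool.Agent.Helper30.MR.R10 o u v w h P0 Q hP0c
      ((hs.cut d).conn _ hQ.1) hP0o hQ.2.1 hP0u ⟨p, hpP, hpo⟩
      (hQ1 d hdm hdS Q hQ.1 hQ.2.2.1) hQ.2.2.2
    have hxV := hVU x (hP0U x hxP hxo) hxo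
    by_contra hne
    exact Set.disjoint_left.1 ((hs.cut d).disj Q hQ.1 V hV hne) hxQ hxV
  -- the agents which are served
  set S1 := insert d0 S with hS1
  have hS1c : S1.card = S.card + 1 := Finset.card_insert_of_notMem hd0S
  have hS1X : (S1 ∩ X).card ≤ q + 1 := by
    have h1 : S1 ∩ X ⊆ insert d0 (S ∩ X) := by
      intro b hb
      rw [Finset.mem_inter, hS1, Finset.mem_insert] at hb
      rw [Finset.mem_insert, Finset.mem_inter]
      rcases hb.1 with e | e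
      · exact Or.inl e
      · exact Or.inr ⟨e, hb.2⟩
    have h2 := Finset.card_le_card h1
    have h3 := Finset.card_insert_le d0 (S ∩ X)
    omega
  have hTle : q + 1 ≤ ((S1 ∩ X) ∪ Y).card :=
    hYq.trans (Finset.card_le_card Finset.subset_union_right)
  obtain ⟨T, hT1, hT2, hT3⟩ := Finset.exists_subsuperset_card_eq
    (Finset.subset_union_left (s₁ := S1 ∩ X) (s₂ := Y)) hS1X hTle
  have hTX : T ⊆ X := hT2.trans (Finset.union_subset Finset.inter_subset_right hY)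
  have hFT : Disjoint F T := Finset.disjoint_of_subset_right hTX hs.disj
  have hFTc : (F ∪ T).card = F.card + q + 1 := by
    rw [Finset.card_union_of_disjoint hFT, hT3]; rfl
  have hS1sub : S1 ⊆ F ∪ X := Finset.insert_subset hd0 hg.sub
  have hSFT : S1 ⊆ F ∪ T := by
    intro b hb
    rcases Finset.mem_union.1 (hS1sub hb) with h1 | h1
    · exact Finset.mem_union_left _ h1
    · exact Finset.mem_union_right _ (hT1 (Finset.mem_inter.2 ⟨hb, h1⟩))
  set M := (F ∪ T) \ S1 with hM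
  have hMc : M.card + S1.card = F.card + q + 1 := by
    rw [← hFTc]; exact Finset.card_sdiff_add_card_eq_card hSFT
  set par' : A → Finset (Set (Pt n)) := fun d => (par d).filter (fun Q =>
    (∀ x ∈ Q, x.1 o < n) ∧ (∀ x ∈ Q, x ∉ (Reg o u z : Set (Pt n))) ∧
      ∀ x ∈ P0, x ∉ Q) with hpar'
  have hserv : Serv par' M := by
    refine hR6' hn o p hpo par'
      (fun b => ⟨fun Q hQ => (hs.cut b).conn Q (Finset.mem_filter.1 hQ).1,
        fun Q hQ => (hs.cut b).ne Q (Finset.mem_filter.1 hQ).1,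
        fun Q hQ Q' hQ' hne => (hs.cut b).disj Q (Finset.mem_filter.1 hQ).1 Q'
          (Finset.mem_filter.1 hQ').1 hne⟩) ?_ ?_ M ?_
    · intro b Q hQ
      exact (Finset.mem_filter.1 hQ).2.1
    · intro b Q hQ
      exact (Finset.mem_filter.1 hQ).2.2.2 p hpP
    · intro d hdM
      rw [hM, Finset.mem_sdiff] at hdM
      have hdS : d ∉ S := fun hh => hdM.2 (Finset.mem_insert_of_mem hh)
      have hdFX : d ∈ F ∪ X := by
        rcases Finset.mem_union.1 hdM.1 with h1 | h1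
        · exact Finset.mem_union_left _ h1
        · exact Finset.mem_union_right _ (hTX h1)
      have hl := hg.loss d hdFX hdS
      have hv := card_vertex (hs.cut d).toPacking o
      set L1 := (par d).filter (fun Q => ∃ x ∈ Q, x.1 o = n) with hL1
      set L2 := (par d).filter (fun Q => (∀ x ∈ Q, x.1 o < n) ∧
        ∃ x ∈ Q, x ∈ (Reg o u z : Set (Pt n))) with hL2
      set L4 := (par d).filter (fun Q => (∀ x ∈ Q, x.1 o < n) ∧
        (∀ x ∈ Q, x ∉ (Reg o u z : Set (Pt n))) ∧ ∃ x ∈ P0, x ∈ Q) with hL4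
      have h1 : par d ⊆ par' d ∪ (L1 ∪ (L2 ∪ L4)) := by
        intro Q hQ
        simp only [Finset.mem_union, hL1, hL2, hL4, hpar', Finset.mem_filter]
        by_cases hQa : ∀ x ∈ Q, x.1 o < n
        · by_cases hQb : ∃ x ∈ Q, x ∈ (Reg o u z : Set (Pt n))
          · exact Or.inr (Or.inr (Or.inl ⟨hQ, hQa, hQb⟩))
          · by_cases hQc : ∃ x ∈ P0, x ∈ Q
            · push Not at hQb
              exact Or.inr (Or.inr (Or.inr ⟨hQ, hQa, hQb, hQc⟩))
            · push Not at hQb hQc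
              exact Or.inl ⟨hQ, hQa, hQb, hQc⟩
        · push Not at hQa
          obtain ⟨x, hx, hxn⟩ := hQa
          exact Or.inr (Or.inl ⟨hQ, x, hx, le_antisymm (le_n x o) hxn⟩)
      have h2 := Finset.card_le_card h1
      have h3 := Finset.card_union_le (par' d) (L1 ∪ (L2 ∪ L4))
      have h4 := Finset.card_union_le L1 (L2 ∪ L4)
      have h5 := Finset.card_union_le L2 L4
      rcases Finset.mem_union.1 hdM.1 with hdF | hdT
      · have h6 := hs.hF d hdF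
        have h7 : L4.card ≤ 2 := hL3 d hdFX hdS
        omega
      · have hdY : d ∈ Y := by
          rcases Finset.mem_union.1 (hT2 hdT) with h8 | h8
          · exact absurd (Finset.mem_inter.1 h8).1 hdM.2
          · exact h8
        have h6 := hs.hX d (hTX hdT)
        have h7 : L4.card ≤ 1 := hL3Y d hdY hdS
        omega
  obtain ⟨g, hg1, hg2⟩ := hserv
  have hfP : ∀ b ∈ S, Disjoint (f b) P0 := by
    intro b hb
    rw [Set.disjoint_left]
    intro x hx hxP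
    exact hP0z x hxP ((hg.mem b hb).2 hx)
  have hfg : ∀ b ∈ S, ∀ d ∈ M, Disjoint (f b) (g d) := by
    intro b hb d hdM
    rw [Set.disjoint_left]
    intro x hx hxg
    exact (Finset.mem_filter.1 (hg1 d hdM)).2.2.1 x hxg ((hg.mem b hb).2 hx)
  have hPg : ∀ d ∈ M, Disjoint P0 (g d) := by
    intro d hdM
    rw [Set.disjoint_left]
    intro x hx hxg
    exact (Finset.mem_filter.1 (hg1 d hdM)).2.2.2 x hx hxg
  -- the three kinds of served agents
  let F1 : A → Set (Pt n) := fun b => if b ∈ S then f b else if b = d0 then P0 else g b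
  have e1 : ∀ b ∈ S, F1 b = f b := fun b hb => by simp [F1, hb]
  have e2 : F1 d0 = P0 := by simp [F1, hd0S]
  have e3 : ∀ b ∈ M, F1 b = g b := by
    intro b hb
    rw [hM, Finset.mem_sdiff, hS1, Finset.mem_insert, not_or] at hb
    simp [F1, hb.2.1, hb.2.2]
  have hcases : ∀ b ∈ F ∪ T, b ∈ S ∨ b = d0 ∨ b ∈ M := by
    intro b hb
    by_cases h1 : b ∈ S
    · exact Or.inl h1
    · by_cases h2 : b = d0
      · exact Or.inr (Or.inl h2)
      · refine Or.inr (Or.inr (Finset.mem_sdiff.2 ⟨hb, ?_⟩))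
        rw [hS1, Finset.mem_insert, not_or]
        exact ⟨h2, h1⟩
  refine ⟨F ∪ T, Finset.subset_union_left, Finset.union_subset_union_right hTX, hFTc,
    F1, ?_, ?_⟩
  · intro b hb
    rcases hcases b hb with h1 | h1 | h1
    · rw [e1 b h1]; exact (hg.mem b h1).1
    · rw [h1, e2]; exact hP0
    · rw [e3 b h1]; exact (Finset.mem_filter.1 (hg1 b h1)).1
  · intro b hb c hc hbc
    rcases hcases b hb with h1 | h1 | h1 <;> rcases hcases c hc with h2 | h2 | h2
    · rw [e1 b h1, e1 c h2]; exact hg.disj b h1 c h2 hbc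
    · rw [e1 b h1, h2, e2]; exact hfP b h1
    · rw [e1 b h1, e3 c h2]; exact hfg b h1 c h2
    · rw [h1, e2, e1 c h2]; exact (hfP c h2).symm
    · exact absurd (h1.trans h2.symm) hbc
    · rw [h1, e2, e3 c h2]; exact hPg c h2
    · rw [e3 b h1, e1 c h2]; exact (hfg c h2 b h1).symm
    · rw [e3 b h1, h2, e2]; exact (hPg b h1).symm
    · rw [e3 b h1, e3 c h2]; exact hg2 b h1 c h2 hbc

end Pool.Agent.Helper54.MR
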