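import Pool.Agent.Helper54.MR.Geo

/-! MR part R8: the greedy procedure on an edge. -/

namespace Pool.Agent.Helper54.MR

open Classical Pool.Agent.Helper14.MR

theorem reg_mono {n : ℕ} {o u : Fin 4} {z z' : ℕ} (h : z ≤ z') :
    (Reg o u z : Set (Pt n)) ⊆ Reg o u z' :=
  fun _ hx => ⟨hx.1, hx.2.1, hx.2.2.1, hx.2.2.2.trans h⟩

/-- a connected set which avoids `o` and the region, and contains a point of the open edge below
the point `x₂` that it does not contain, is inside the open edge, below `x₂` -/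
theorem inside {n : ℕ} {o u v w : Fin 4} (h : Dist o u v w) (Q : Set (Pt n)) (hQ : Conn Adj Q)
    (hQo : ∀ x ∈ Q, x.1 o < n) (z : ℕ) (hQz : ∀ x ∈ Q, x ∉ (Reg o u z : Set (Pt n)))
    (x₁ x₂ : Pt n) (h1 : x₁ ∈ Q) (h2 : x₂ ∉ Q) (h1e : x₁.1 o + x₁.1 u = n) (h1u : 0 < x₁.1 u)
    (h2e : x₂.1 o + x₂.1 u = n) (h2o : 0 < x₂.1 o) (hlt : x₁.1 u < x₂.1 u) :
    ∀ y ∈ Q, y.1 o + y.1 u = n ∧ z < y.1 u ∧ 0 < y.1 u ∧ y.1 u < x₂.1 u := by
  have key := hQ {y | y.1 o + y.1 u = n ∧ z < y.1 u ∧ 0 < y.1 u ∧ y.1 u < x₂.1 u}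
    ⟨x₁, h1, by
      refine ⟨h1e, ?_, h1u, hlt⟩
      by_contra hcon
      exact hQz x₁ h1 ⟨h1e, by omega, h1u, by omega⟩⟩ ?_
  · intro y hy
    exact key hy
  · intro x hx hxW y hy hxy
    obtain ⟨hxe, hxz, hx0, hxlt⟩ := hxW
    obtain ⟨hye, hyu⟩ := adj_edge h hxy (by omega) hx0
    have hyo := hQo y hy
    have hyz := hQz y hy
    have hyu0 : 0 < y.1 u := by omega
    refine ⟨hye, ?_, hyu0, ?_⟩
    · by_contra hcon
      exact hyz ⟨hye, by omega, hyu0, by omega⟩
    · by_contra hcon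
      have hyx : y = x₂ := edge_ext h hye h2e (by omega)
      exact h2 (hyx ▸ hy)

/-- R8. greedy on an edge with a cap `κ` on the number of agents of `X` -/
theorem R8 {A : Type} {n : ℕ} (o u : Fin 4) (hou : o ≠ u) (par : A → Finset (Set (Pt n)))
    (hpar : ∀ a, Cut Adj (par a)) (F X : Finset A) (κ : ℕ) :
    ∃ (S : Finset A) (f : A → Set (Pt n)) (z : ℕ), Greedy par o u F X S f z ∧
      (S ∩ X).card ≤ κ ∧ ((S ∩ X).card = κ ∨ Done par o u F X S z) := by
  obtain ⟨v, w, h⟩ := exists_dist hou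
  by_contra hcon
  push Not at hcon
  have key : ∀ k : ℕ, ∃ (S : Finset A) (f : A → Set (Pt n)) (z : ℕ), Greedy par o u F X S f z ∧
      (S ∩ X).card ≤ κ ∧ S.card = k := by
    intro k
    induction k with
    | zero =>
      refine ⟨∅, fun _ => ∅, 0, ⟨by simp, by simp, by simp, ?_⟩, by simp, by simp⟩
      intro d _ _
      rw [Finset.card_empty, Nat.le_zero, Finset.card_eq_zero, Finset.filter_eq_empty_iff]
      rintro Q _ ⟨_, x, _, hx⟩
      have h1 := hx.2.2.1
      have h2 := hx.2.2.2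
      omega
    | succ k ih =>
      obtain ⟨S, f, z, hG, hc, hk⟩ := ih
      obtain ⟨hne, hD⟩ := hcon S f z hG hc
      unfold Done at hD
      push Not at hD
      obtain ⟨d0, hd0, hd0S, Q0, hQ0, hQ0e, hQ0z⟩ := hD
      -- the least possible maximum
      have hex : ∃ ζ : ℕ, ∃ d ∈ F ∪ X, d ∉ S ∧ ∃ Q ∈ par d, (∀ x ∈ Q, 0 < x.1 o ∧ 0 < x.1 u) ∧
          (∀ x ∈ Q, x ∉ (Reg o u z : Set (Pt n))) ∧ ∀ x ∈ Q, x.1 u ≤ ζ :=
        ⟨n, d0, hd0, hd0S, Q0, hQ0, hQ0e, hQ0z, fun x _ => le_n x u⟩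
      set ζ := Nat.find hex with hζ
      obtain ⟨d, hd, hdS, Q, hQ, hQe, hQz, hQζ⟩ := Nat.find_spec hex
      have hmin : ∀ e ∈ F ∪ X, e ∉ S → ∀ Q' ∈ par e, (∀ x ∈ Q', 0 < x.1 o ∧ 0 < x.1 u) →
          (∀ x ∈ Q', x ∉ (Reg o u z : Set (Pt n))) → ∀ η < ζ, ¬ ∀ x ∈ Q', x.1 u ≤ η := by
        intro e he heS Q' hQ' h1 h2 η hη h3
        exact Nat.find_min hex hη ⟨e, he, heS, Q', hQ', h1, h2, h3⟩
      rw [← hζ] at hQζ
      have hedge : ∀ x : Pt n, 0 < x.1 o → 0 < x.1 u → x.1 o + x.1 u = n := by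
        intro x h1 h2
        have h3 := sum4 h x
        have h4 := two4 h x
        omega
      have hzζ : z < ζ := by
        obtain ⟨x, hx⟩ := (hpar d).ne Q hQ
        have h1 := hQζ x hx
        by_contra hcon
        exact hQz x hx ⟨hedge x (hQe x hx).1 (hQe x hx).2, (hQe x hx).1, (hQe x hx).2, by omega⟩
      have hfd : ∀ a ∈ S, a ≠ d := fun a ha e => hdS (e ▸ ha)
      refine ⟨insert d S, Function.update f d Q, ζ, ⟨?_, ?_, ?_, ?_⟩, ?_, ?_⟩
      · exact Finset.insert_subset hd hG.sub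
      · intro a ha
        rcases Finset.mem_insert.1 ha with e | ha'
        · subst e
          rw [Function.update_self]
          exact ⟨hQ, fun x hx => ⟨hedge x (hQe x hx).1 (hQe x hx).2, (hQe x hx).1, (hQe x hx).2,
            hQζ x hx⟩⟩
        · rw [Function.update_of_ne (hfd a ha')]
          exact ⟨(hG.mem a ha').1, (hG.mem a ha').2.trans (reg_mono hzζ.le)⟩
      · have hdis : ∀ a ∈ S, Disjoint (f a) Q := by
          intro a ha
          rw [Set.disjoint_left]
          intro x hx hxQ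
          exact hQz x hxQ ((hG.mem a ha).2 hx)
        intro a ha b hb hab
        rcases Finset.mem_insert.1 ha with e | ha' <;> rcases Finset.mem_insert.1 hb with e' | hb'
        · exact absurd (e.trans e'.symm) hab
        · subst e
          rw [Function.update_self, Function.update_of_ne (hfd b hb')]
          exact (hdis b hb').symm
        · subst e'
          rw [Function.update_self, Function.update_of_ne (hfd a ha')]
          exact hdis a ha'
        · rw [Function.update_of_ne (hfd a ha'), Function.update_of_ne (hfd b hb')]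
          exact hG.disj a ha' b hb' hab
      · intro e he heS
        have heS' : e ∉ S := fun h' => heS (Finset.mem_insert_of_mem h')
        rw [Finset.card_insert_of_notMem hdS]
        set P1 := (par e).filter (fun Q => (∀ x ∈ Q, x.1 o < n) ∧
          ∃ x ∈ Q, x ∈ (Reg o u z : Set (Pt n))) with hP1
        set P2 := (par e).filter (fun Q => (∀ x ∈ Q, x.1 o < n) ∧
          (∃ x ∈ Q, x ∈ (Reg o u ζ : Set (Pt n))) ∧ ∀ x ∈ Q, x ∉ (Reg o u z : Set (Pt n))) with hP2
        have hsub : (par e).filter (fun Q => (∀ x ∈ Q, x.1 o < n) ∧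
            ∃ x ∈ Q, x ∈ (Reg o u ζ : Set (Pt n))) ⊆ P1 ∪ P2 := by
          intro Q' hQ'
          rw [Finset.mem_filter] at hQ'
          rw [Finset.mem_union, hP1, hP2, Finset.mem_filter, Finset.mem_filter]
          by_cases hm : ∃ x ∈ Q', x ∈ (Reg o u z : Set (Pt n))
          · exact Or.inl ⟨hQ'.1, hQ'.2.1, hm⟩
          · push Not at hm
            exact Or.inr ⟨hQ'.1, hQ'.2.1, hQ'.2.2, hm⟩
        have hP1c : P1.card ≤ S.card := hG.loss e he heS'
        have hP2c : P2.card ≤ 1 := by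
          rw [Finset.card_le_one]
          have main : ∀ Q1 ∈ P2, ∀ Q2 ∈ P2, Q1 ≠ Q2 → ∀ x₁ ∈ Q1, ∀ x₂ ∈ Q2,
              x₁ ∈ (Reg o u ζ : Set (Pt n)) → x₂ ∈ (Reg o u ζ : Set (Pt n)) →
              ¬ x₁.1 u < x₂.1 u := by
            intro Q1 hQ1 Q2 hQ2 hne x₁ hx₁ x₂ hx₂ hr₁ hr₂ hlt
            rw [hP2, Finset.mem_filter] at hQ1 hQ2
            have hdis := (hpar e).disj Q1 hQ1.1 Q2 hQ2.1 hne
            have hx₂' : x₂ ∉ Q1 := fun h' => Set.disjoint_left.1 hdis h' hx₂
            have hin := inside h Q1 ((hpar e).conn Q1 hQ1.1) hQ1.2.1 z hQ1.2.2.2 x₁ x₂ hx₁ hx₂'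
              hr₁.1 hr₁.2.2.1 hr₂.1 hr₂.2.1 hlt
            have hr2u := hr₂.2.2.2
            refine hmin e he heS' Q1 hQ1.1 ?_ hQ1.2.2.2 (x₂.1 u - 1) (by omega) ?_
            · intro y hy
              have h1 := hin y hy
              have h2 := hr₂.1
              have h3 := hr₂.2.1
              omega
            · intro y hy
              have h1 := hin y hy
              omega
          intro Q1 hQ1 Q2 hQ2
          by_contra hne
          have hQ1' := hQ1
          have hQ2' := hQ2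
          rw [hP2, Finset.mem_filter] at hQ1' hQ2'
          obtain ⟨x₁, hx₁, hr₁⟩ := hQ1'.2.2.1
          obtain ⟨x₂, hx₂, hr₂⟩ := hQ2'.2.2.1
          rcases lt_trichotomy (x₁.1 u) (x₂.1 u) with hlt | heq | hgt
          · exact main Q1 hQ1 Q2 hQ2 hne x₁ hx₁ x₂ hx₂ hr₁ hr₂ hlt
          · have : x₁ = x₂ := edge_ext h hr₁.1 hr₂.1 heq
            exact Set.disjoint_left.1 ((hpar e).disj Q1 hQ1'.1 Q2 hQ2'.1 hne) hx₁ (this ▸ hx₂)
          · exact main Q2 hQ2 Q1 hQ1 (Ne.symm hne) x₂ hx₂ x₁ hx₁ hr₂ hr₁ hgt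
        have h1 := Finset.card_le_card hsub
        have h2 := Finset.card_union_le P1 P2
        omega
      · have h1 : (insert d S) ∩ X ⊆ insert d (S ∩ X) := by
          intro a ha
          rw [Finset.mem_inter, Finset.mem_insert] at ha
          rw [Finset.mem_insert, Finset.mem_inter]
          rcases ha.1 with e | e
          · exact Or.inl e
          · exact Or.inr ⟨e, ha.2⟩
        have h2 := Finset.card_le_card h1
        have h3 := Finset.card_insert_le d (S ∩ X)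
        omega
      · rw [Finset.card_insert_of_notMem hdS, hk]
  obtain ⟨S, f, z, hG, _, hS⟩ := key ((F ∪ X).card + 1)
  have h1 := Finset.card_le_card hG.sub
  omega

end Pool.Agent.Helper54.MR
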